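import Mathlib

/-!
# HYPERSURFACES, Chb: primes

`many`: for `x ≥ 1` there are `x` primes in `(P₀, 64 (P₀ + x)²]` (Chebyshev: `π(64 x²) ≥ x`).
`sel`: `2 E + 1` primes larger than `Z₁ ≥ 3`, `Δ ≠ 0`, `|Δ| ≤ 2 D²`, `D ≤ Z₁^E`: one of them does not divide `Δ`.
-/

set_option autoImplicit false

namespace Pool.Agent.H33.TH2

theorem pi_ge (x : ℕ) (hx : 1 ≤ x) : x ≤ Nat.primeCounting (64 * x ^ 2) := by
  by_contra hcon
  push Not at hcon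
  have hxr : (1 : ℝ) ≤ x := by exact_mod_cast hx
  have h1 := Chebyshev.psi_ge (64 * x ^ 2)
  have h2 := Chebyshev.psi_le_primeCounting_mul_log (64 * x ^ 2)
  have h3 := h1.trans h2
  have hn : ((64 * x ^ 2 : ℕ) : ℝ) = 64 * (x : ℝ) ^ 2 := by push_cast; ring
  rw [hn] at h3
  have hl2 := Real.log_two_gt_d9
  have hl2' := Real.log_two_lt_d9
  have hlog : Real.log (64 * (x : ℝ) ^ 2) ≤ 2 * x + 2.2 := by
    rw [Real.log_mul (by norm_num) (by positivity), Real.log_pow]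
    have e1 : Real.log (64 : ℝ) = 6 * Real.log 2 := by
      rw [show (64 : ℝ) = 2 ^ 6 by norm_num, Real.log_pow]
      norm_num
    have e2 := Real.log_le_sub_one_of_pos (by linarith : (0 : ℝ) < x)
    rw [e1]
    push_cast
    linarith
  have hlog0 : 0 ≤ Real.log (64 * (x : ℝ) ^ 2) := by
    apply Real.log_nonneg
    nlinarith
  have hlog1 : Real.log (64 * (x : ℝ) ^ 2 + 1) ≤ 2 * x + 2.9 := by
    have e1 : 64 * (x : ℝ) ^ 2 + 1 ≤ 2 * (64 * (x : ℝ) ^ 2) := by nlinarith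
    have e2 := Real.log_le_log (by positivity) e1
    rw [Real.log_mul (by norm_num) (by positivity)] at e2
    linarith
  have hpi : ((Nat.primeCounting (64 * x ^ 2) : ℕ) : ℝ) ≤ x := by exact_mod_cast hcon.le
  have h4 : (Nat.primeCounting (64 * x ^ 2) : ℝ) * Real.log (64 * (x : ℝ) ^ 2) ≤ x * (2 * x + 2.2) :=
    (mul_le_mul_of_nonneg_right hpi hlog0).trans (mul_le_mul_of_nonneg_left hlog (by linarith))
  nlinarith

theorem many (P₀ x : ℕ) (hx : 1 ≤ x) : ∃ s : Finset ℕ, s.card = x ∧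
    ∀ p ∈ s, p.Prime ∧ P₀ < p ∧ p ≤ 64 * (P₀ + x) ^ 2 := by
  classical
  have h1 := pi_ge (P₀ + x) (by omega)
  obtain ⟨n, hn⟩ : ∃ n : ℕ, n = 64 * (P₀ + x) ^ 2 := ⟨_, rfl⟩
  rw [← hn] at h1 ⊢
  obtain ⟨A, hA⟩ : ∃ A : Finset ℕ, A = (Finset.range (n + 1)).filter Nat.Prime := ⟨_, rfl⟩
  have hAc : P₀ + x ≤ A.card := by
    rw [Nat.primeCounting, Nat.primeCounting', Nat.count_eq_card_filter_range] at h1
    rw [hA]
    exact h1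
  have h2 : x ≤ (A \ Finset.Icc 1 P₀).card := by
    have h3 := Finset.le_card_sdiff (Finset.Icc 1 P₀) A
    rw [Nat.card_Icc] at h3
    omega
  obtain ⟨s, hs1, hs2⟩ := Finset.exists_subset_card_eq h2
  refine ⟨s, hs2, fun p hp => ?_⟩
  have h3 := hs1 hp
  rw [Finset.mem_sdiff, hA, Finset.mem_filter, Finset.mem_range, Finset.mem_Icc] at h3
  obtain ⟨⟨h4, h5⟩, h6⟩ := h3
  refine ⟨h5, ?_, by omega⟩
  by_contra h7
  exact h6 ⟨h5.one_lt.le, by omega⟩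

theorem sel (E Z₁ D : ℕ) (hZ : D ≤ Z₁ ^ E) (h3 : 3 ≤ Z₁) (Δ : ℤ) (hΔ : Δ ≠ 0)
    (hΔD : |Δ| ≤ ((2 * D ^ 2 : ℕ) : ℤ)) (s : Finset ℕ) (hs1 : s.card = 2 * E + 1)
    (hs2 : ∀ p ∈ s, p.Prime ∧ Z₁ < p) : ∃ p ∈ s, ¬ (p : ℤ) ∣ Δ := by
  classical
  by_contra hcon
  push Not at hcon
  have hall : ∀ p ∈ s, p ∣ Δ.natAbs := fun p hp => Int.natCast_dvd.1 (hcon p hp)
  have hprod : (∏ p ∈ s, p) ∣ Δ.natAbs :=
    Finset.prod_primes_dvd _ (fun p hp => (hs2 p hp).1.prime) hall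
  have h5 : ∏ p ∈ s, p ≤ Δ.natAbs := Nat.le_of_dvd (Int.natAbs_pos.2 hΔ) hprod
  have h6 : Z₁ ^ (2 * E + 1) ≤ ∏ p ∈ s, p := by
    rw [← hs1]
    exact Finset.pow_card_le_prod s _ _ fun p hp => (hs2 p hp).2.le
  have h7 : Δ.natAbs ≤ 2 * D ^ 2 := by
    have h8 : ((Δ.natAbs : ℕ) : ℤ) = |Δ| := Int.natCast_natAbs Δ
    have h9 : ((Δ.natAbs : ℕ) : ℤ) ≤ ((2 * D ^ 2 : ℕ) : ℤ) := by
      rw [h8]
      exact hΔD
    exact_mod_cast h9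
  have h8 : D ^ 2 ≤ Z₁ ^ (2 * E) := by
    calc D ^ 2 ≤ (Z₁ ^ E) ^ 2 := Nat.pow_le_pow_left hZ 2
      _ = Z₁ ^ (2 * E) := by rw [← pow_mul, mul_comm]
  have h9 : 0 < Z₁ ^ (2 * E) := by positivity
  have h10 : Z₁ ^ (2 * E + 1) = Z₁ ^ (2 * E) * Z₁ := pow_succ _ _
  nlinarith

end Pool.Agent.H33.TH2
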