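import Pool.Agent.H33.TR.Twi
import Pool.Agent.H11.TH.Irr
import Pool.Agent.H72.PB.Defs

/-!
# HYPERSURFACES, Cnj: conjugates and twists

`f` irreducible over `Ω`, `cj σ f` its conjugates, `tw c f` its twists `f(c x)`. A prime `p` is exceptional (`Exc L f p`) if for some `σ`
over `L` and some `c` with `c^p = 1` the conjugate `cj σ f` is associated to `tw c f` but not to `f`.
* `exc_card`: if `F ≠ 0` has coefficients in `L` and `f ∣ F`, the number `r` of exceptional primes satisfies `2^r ≤ deg_i F`: for `r` exceptional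
  primes the `2^r` products of the `σ_p` give pairwise not associated conjugates.
* `count`: `p` not exceptional and prime to a minor (coordinates `i`, `j`) of the exponents of `f`, `s` a set of `σ` over `L` with pairwise not
  associated `cj σ f`, all of them divisors of `G(x^p)`, `deg_i G ≤ M`: then `p (#s) deg_i f ≤ M`: the `p² #s` polynomials `(cj σ f)(c x)` are
  pairwise not associated.
-/

set_option autoImplicit false
set_option linter.unusedSectionVars false

open MvPolynomial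

namespace Pool.Agent.H33.TH2

open Pool.Agent.H33.TR Pool.Agent.H72.PB Pool.Agent.H11.TH

section

variable {Ω : Type} [Field Ω] {k : ℕ}

theorem card_factors_w (H : MvPolynomial (Fin k) Ω) (hH : H ≠ 0) {I : Type}
    (s : Finset I) (f : I → MvPolynomial (Fin k) Ω) (hirr : ∀ a ∈ s, Irreducible (f a))
    (hna : ∀ a ∈ s, ∀ b ∈ s, a ≠ b → ¬ Associated (f a) (f b)) (hdiv : ∀ a ∈ s, f a ∣ H)
    (l : Fin k) (d : ℕ) (hl : ∀ a ∈ s, d ≤ (f a).degreeOf l) : s.card * d ≤ H.degreeOf l := by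
  classical
  have h1 : (∏ a ∈ s, f a) ∣ H := by
    refine Finset.prod_dvd_of_isRelPrime ?_ hdiv
    intro a ha b hb hab
    change IsRelPrime (f a) (f b)
    rw [(hirr a ha).isRelPrime_iff_not_dvd]
    intro h
    exact hna a ha b hb hab ((hirr a ha).associated_of_dvd (hirr b hb) h)
  obtain ⟨q, hq⟩ := h1
  have hP : ∏ a ∈ s, f a ≠ 0 := by
    intro h
    apply hH
    rw [hq, h, zero_mul]
  have hq0 : q ≠ 0 := by
    intro h
    apply hH
    rw [hq, h, mul_zero]
  rw [hq, degreeOf_mul_eq hP hq0, degreeOf_prod_eq s f fun a ha => (hirr a ha).ne_zero]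
  calc s.card * d = ∑ _a ∈ s, d := by rw [Finset.sum_const, smul_eq_mul]
    _ ≤ ∑ a ∈ s, (f a).degreeOf l := Finset.sum_le_sum hl
    _ ≤ _ := Nat.le_add_right _ _

theorem tw_mul (c d : Tor Ω k) (f : MvPolynomial (Fin k) Ω) :
    tw (crd c) (tw (crd d) f) = tw (crd (c * d)) f := by
  ext m
  rw [coeff_tw, coeff_tw, coeff_tw, ← mul_assoc, ← Finset.prod_mul_distrib]
  congr 1
  refine Finset.prod_congr rfl fun l _ => ?_
  rw [← mul_pow]
  rfl

theorem tw_one (f : MvPolynomial (Fin k) Ω) : tw (crd (1 : Tor Ω k)) f = f := by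
  ext m
  rw [coeff_tw]
  have h1 : ∏ l, crd (1 : Tor Ω k) l ^ m l = 1 := Finset.prod_eq_one fun l _ => one_pow _
  rw [h1, one_mul]

theorem assoc_tw {f g : MvPolynomial (Fin k) Ω} (h : Associated f g) (c : Fin k → Ω) :
    Associated (tw c f) (tw c g) := h.map (tw c)

/-- the stabiliser -/
noncomputable def Stb (f : MvPolynomial (Fin k) Ω) : Subgroup (Tor Ω k) where
  carrier := {c | Associated (tw (crd c) f) f}
  one_mem' := by
    rw [Set.mem_ofPred_eq, tw_one]
  mul_mem' := by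
    intro a b ha hb
    rw [Set.mem_ofPred_eq] at ha hb ⊢
    rw [← tw_mul]
    exact (assoc_tw hb _).trans ha
  inv_mem' := by
    intro a ha
    rw [Set.mem_ofPred_eq] at ha ⊢
    have h1 := assoc_tw ha (crd a⁻¹)
    rw [tw_mul, inv_mul_cancel, tw_one] at h1
    exact h1.symm

theorem mem_Stb {f : MvPolynomial (Fin k) Ω} {c : Tor Ω k} :
    c ∈ Stb f ↔ Associated (tw (crd c) f) f := Iff.rfl

/-- two twists are associated if and only if the quotient is in the stabiliser -/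
theorem tw_assoc_iff {f : MvPolynomial (Fin k) Ω} (c d : Tor Ω k) :
    Associated (tw (crd c) f) (tw (crd d) f) ↔ d⁻¹ * c ∈ Stb f := by
  rw [mem_Stb, ← tw_mul]
  constructor
  · intro h
    have h1 := assoc_tw h (crd d⁻¹)
    rw [tw_mul d⁻¹ d, inv_mul_cancel, tw_one] at h1
    exact h1
  · intro h
    have h1 := assoc_tw h (crd d)
    rw [tw_mul d d⁻¹, mul_inv_cancel, tw_one] at h1
    exact h1

/-- the components of an element of a subgroup -/
theorem comp_mem {A : Type} [CommGroup A] (S : Subgroup A) (a b : A) (m p : ℕ) (hmp : Nat.Coprime m p)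
    (ha : a ^ m = 1) (hb : b ^ p = 1) (hab : a * b ∈ S) : a ∈ S ∧ b ∈ S := by
  have h1 : a ^ p ∈ S := by
    have h2 := S.pow_mem hab p
    rw [mul_pow, hb, mul_one] at h2
    exact h2
  have h2 : a ∈ S := by
    have h3 := Nat.gcd_eq_gcd_ab m p
    rw [hmp] at h3
    have h4 : a = a ^ ((1 : ℕ) : ℤ) := by simp
    rw [h4, h3, zpow_add, zpow_mul, zpow_mul, zpow_natCast, zpow_natCast, ha, one_zpow, one_mul]
    exact S.zpow_mem h1 _
  refine ⟨h2, ?_⟩
  have h3 := S.mul_mem (S.inv_mem h2) hab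
  rwa [inv_mul_cancel_left] at h3

end

variable {K Ω : Type} [Field K] [Field Ω] [Algebra K Ω] {k : ℕ}

/-- the conjugate -/
noncomputable def cj (σ : Ω ≃ₐ[K] Ω) (f : MvPolynomial (Fin k) Ω) : MvPolynomial (Fin k) Ω :=
  map (σ : Ω →+* Ω) f

theorem cj_mul (σ τ : Ω ≃ₐ[K] Ω) (f : MvPolynomial (Fin k) Ω) : cj (σ * τ) f = cj σ (cj τ f) := by
  unfold cj
  rw [map_map]
  rfl

theorem cj_one (f : MvPolynomial (Fin k) Ω) : cj (1 : Ω ≃ₐ[K] Ω) f = f := by
  unfold cj
  ext m
  rw [coeff_map]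
  rfl

theorem cj_irr (σ : Ω ≃ₐ[K] Ω) {f : MvPolynomial (Fin k) Ω} (hf : Irreducible f) : Irreducible (cj σ f) :=
  (MulEquiv.irreducible_iff (mapEquiv (Fin k) σ.toRingEquiv)).2 hf

theorem cj_assoc (σ : Ω ≃ₐ[K] Ω) {f g : MvPolynomial (Fin k) Ω} (h : Associated f g) :
    Associated (cj σ f) (cj σ g) := h.map (map (σ : Ω →+* Ω))

theorem cj_supp (σ : Ω ≃ₐ[K] Ω) (f : MvPolynomial (Fin k) Ω) : (cj σ f).support = f.support := by
  ext m
  unfold cj
  rw [mem_support_iff, mem_support_iff, coeff_map]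
  constructor
  · intro h h0
    exact h (by rw [h0, map_zero])
  · intro h h0
    exact h ((σ : Ω →+* Ω).injective (by rw [h0, map_zero]))

theorem cj_deg (σ : Ω ≃ₐ[K] Ω) (f : MvPolynomial (Fin k) Ω) (l : Fin k) :
    (cj σ f).degreeOf l = f.degreeOf l := by
  classical
  rw [degreeOf_eq_sup, degreeOf_eq_sup, cj_supp]

theorem cj_tw (σ : Ω ≃ₐ[K] Ω) (c : Tor Ω k) (f : MvPolynomial (Fin k) Ω) :
    cj σ (tw (crd c) f) = tw (crd (mv σ c)) (cj σ f) := by
  ext m
  unfold cj
  rw [coeff_map, coeff_tw, coeff_tw, map_mul, map_prod, coeff_map]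
  congr 1
  refine Finset.prod_congr rfl fun l _ => ?_
  rw [map_pow]
  rfl

theorem mv_pow (σ : Ω ≃ₐ[K] Ω) (c : Tor Ω k) (n : ℕ) (hc : c ^ n = 1) : mv σ c ^ n = 1 := by
  funext l
  have h1 := congrFun hc l
  apply Units.ext
  have h2 : ((c l : Ω)) ^ n = 1 := by
    rw [← Units.val_pow_eq_pow_val]
    exact congrArg Units.val h1
  change (σ (c l : Ω)) ^ n = 1
  rw [← map_pow, h2, map_one]

/-- exceptional primes -/
def Exc (L : IntermediateField K Ω) (f : MvPolynomial (Fin k) Ω) (p : ℕ) : Prop :=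
  ∃ (σ : Ω ≃ₐ[K] Ω) (c : Tor Ω k), (∀ z ∈ L, σ z = z) ∧ c ^ p = 1 ∧
    Associated (cj σ f) (tw (crd c) f) ∧ ¬ Associated (cj σ f) f

/-- the family of conjugates of a set of exceptional primes -/
theorem exc_fam (L : IntermediateField K Ω) (f : MvPolynomial (Fin k) Ω) (E : Finset ℕ)
    (hE : ∀ p ∈ E, p.Prime ∧ Exc L f p) : ∃ s : Finset (Ω ≃ₐ[K] Ω), s.card = 2 ^ E.card ∧
      (∀ σ ∈ s, (∀ z ∈ L, σ z = z) ∧ ∃ c : Tor Ω k, c ^ (∏ p ∈ E, p) = 1 ∧
        Associated (cj σ f) (tw (crd c) f)) ∧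
      ∀ σ ∈ s, ∀ τ ∈ s, σ ≠ τ → ¬ Associated (cj σ f) (cj τ f) := by
  classical
  induction E using Finset.induction_on with
  | empty =>
    refine ⟨{1}, by simp, ?_, ?_⟩
    · intro σ hσ
      rw [Finset.mem_singleton] at hσ
      subst hσ
      refine ⟨fun z _ => rfl, 1, one_pow _, ?_⟩
      rw [cj_one, tw_one]
    · intro σ hσ τ hτ h
      rw [Finset.mem_singleton] at hσ hτ
      exact absurd (hσ.trans hτ.symm) h
  | insert p E hp ih =>
    obtain ⟨s, hs1, hs2, hs3⟩ := ih fun q hq => hE q (Finset.mem_insert_of_mem hq)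
    obtain ⟨hpp, ρ, c, hρ, hc, hρf, hρn⟩ := hE p (Finset.mem_insert_self _ _)
    have hcop : Nat.Coprime (∏ q ∈ E, q) p := by
      refine Nat.Coprime.prod_left fun q hq => ?_
      refine (Nat.coprime_primes (hE q (Finset.mem_insert_of_mem hq)).1 hpp).2 ?_
      rintro rfl
      exact hp hq
    have hcn : c ∉ Stb f := by
      intro h
      exact hρn (hρf.trans h)
    -- the conjugate of `c` is not in the stabiliser
    have hmv : ∀ σ : Ω ≃ₐ[K] Ω, ∀ d : Tor Ω k, Associated (cj σ f) (tw (crd d) f) →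
        mv σ c ∉ Stb f := by
      intro σ d hd h
      apply hcn
      rw [mem_Stb] at h ⊢
      -- `σ f ~ tw d f`, so `σ (tw c f) = tw (σ c) (σ f) ~ tw (σ c d) f ~ tw d f ~ σ f`
      have h1 : Associated (cj σ (tw (crd c) f)) (cj σ f) := by
        rw [cj_tw]
        refine (assoc_tw hd _).trans ?_
        rw [tw_mul, mul_comm, ← tw_mul]
        exact (assoc_tw h _).trans hd.symm
      have h2 := cj_assoc σ⁻¹ h1
      rw [← cj_mul, ← cj_mul, inv_mul_cancel, cj_one, cj_one] at h2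
      exact h2
    have hnew : ∀ σ ∈ s, ∀ d : Tor Ω k, Associated (cj σ f) (tw (crd d) f) →
        Associated (cj (σ * ρ) f) (tw (crd (d * mv σ c)) f) := by
      intro σ _ d hd
      rw [cj_mul]
      refine (cj_assoc σ hρf).trans ?_
      rw [cj_tw, mul_comm d, ← tw_mul]
      exact assoc_tw hd _
    -- the two families
    have hA : ∀ σ ∈ s, ∀ τ ∈ s, Associated (cj (σ * ρ) f) (cj (τ * ρ) f) → σ = τ := by
      intro σ hσ τ hτ h
      by_contra hne
      obtain ⟨-, d, hd1, hd⟩ := hs2 σ hσ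
      obtain ⟨-, e, he1, he⟩ := hs2 τ hτ
      have h1 := ((hnew σ hσ d hd).symm.trans h).trans (hnew τ hτ e he)
      rw [tw_assoc_iff] at h1
      have h2 : (e * mv τ c)⁻¹ * (d * mv σ c) = (e⁻¹ * d) * ((mv τ c)⁻¹ * mv σ c) := by
        rw [mul_inv]
        exact mul_mul_mul_comm _ _ _ _
      rw [h2] at h1
      have h3 := (comp_mem (Stb f) _ _ _ p hcop (by rw [mul_pow, inv_pow, he1, hd1, inv_one, one_mul])
        (by rw [mul_pow, inv_pow, mv_pow _ _ _ hc, mv_pow _ _ _ hc, inv_one, one_mul]) h1).1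
      rw [← tw_assoc_iff] at h3
      exact hs3 σ hσ τ hτ hne ((hd.trans h3).trans he.symm)
    have hB : ∀ σ ∈ s, ∀ τ ∈ s, ¬ Associated (cj (σ * ρ) f) (cj τ f) := by
      intro σ hσ τ hτ h
      obtain ⟨-, d, hd1, hd⟩ := hs2 σ hσ
      obtain ⟨-, e, he1, he⟩ := hs2 τ hτ
      have h1 := ((hnew σ hσ d hd).symm.trans h).trans he
      rw [tw_assoc_iff, ← mul_assoc] at h1
      have h3 := (comp_mem (Stb f) _ _ _ p hcop (by rw [mul_pow, inv_pow, he1, hd1, inv_one, one_mul])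
        (mv_pow _ _ _ hc) h1).2
      exact hmv σ d hd h3
    refine ⟨s ∪ s.image (fun σ => σ * ρ), ?_, ?_, ?_⟩
    · rw [Finset.card_union_of_disjoint, Finset.card_image_of_injective _ (mul_left_injective ρ), hs1,
        Finset.card_insert_of_notMem hp, pow_succ]
      · ring
      · rw [Finset.disjoint_left]
        intro τ hτ h
        rw [Finset.mem_image] at h
        obtain ⟨σ, hσ, rfl⟩ := h
        exact hB σ hσ _ hτ (Associated.refl _)
    · intro σ hσ
      have hprod : ∏ q ∈ insert p E, q = (∏ q ∈ E, q) * p := by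
        rw [Finset.prod_insert hp, mul_comm]
      rcases Finset.mem_union.1 hσ with h | h
      · obtain ⟨h1, d, hd1, hd⟩ := hs2 σ h
        exact ⟨h1, d, by rw [hprod, pow_mul, hd1, one_pow], hd⟩
      · rw [Finset.mem_image] at h
        obtain ⟨τ, hτ, rfl⟩ := h
        obtain ⟨h1, d, hd1, hd⟩ := hs2 τ hτ
        refine ⟨fun z hz => ?_, d * mv τ c, ?_, hnew τ hτ d hd⟩
        · rw [AlgEquiv.mul_apply, hρ z hz, h1 z hz]
        · rw [hprod, mul_pow, pow_mul, hd1, one_pow, one_mul, mul_comm, pow_mul,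
            mv_pow _ _ _ hc, one_pow]
    · intro σ hσ τ hτ hne h
      rcases Finset.mem_union.1 hσ with h1 | h1 <;> rcases Finset.mem_union.1 hτ with h2 | h2
      · exact hs3 σ h1 τ h2 hne h
      · rw [Finset.mem_image] at h2
        obtain ⟨τ', hτ', rfl⟩ := h2
        exact hB τ' hτ' σ h1 h.symm
      · rw [Finset.mem_image] at h1
        obtain ⟨σ', hσ', rfl⟩ := h1
        exact hB σ' hσ' τ h2 h
      · rw [Finset.mem_image] at h1 h2
        obtain ⟨σ', hσ', rfl⟩ := h1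
        obtain ⟨τ', hτ', rfl⟩ := h2
        exact hne (by rw [hA σ' hσ' τ' hτ' h])

/-- conjugates divide -/
theorem cj_dvd (L : IntermediateField K Ω) (f : MvPolynomial (Fin k) Ω) (F : MvPolynomial (Fin k) L)
    (hdiv : f ∣ map (algebraMap L Ω) F) (σ : Ω ≃ₐ[K] Ω) (hσ : ∀ z ∈ L, σ z = z) :
    cj σ f ∣ map (algebraMap L Ω) F := by
  have h3 : cj σ (map (algebraMap L Ω) F) = map (algebraMap L Ω) F := by
    have h4 : (σ : Ω →+* Ω).comp (algebraMap L Ω) = algebraMap L Ω :=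
      RingHom.ext fun z => hσ _ z.2
    unfold cj
    rw [map_map, h4]
  obtain ⟨q, hq⟩ := hdiv
  rw [← h3, hq]
  unfold cj
  rw [map_mul]
  exact Dvd.intro _ rfl

theorem exc_card (L : IntermediateField K Ω) (f : MvPolynomial (Fin k) Ω) (hf : Irreducible f)
    (F : MvPolynomial (Fin k) L) (hF0 : F ≠ 0) (hdiv : f ∣ map (algebraMap L Ω) F) (i : Fin k)
    (hi : 1 ≤ f.degreeOf i) (E : Finset ℕ) (hE : ∀ p ∈ E, p.Prime ∧ Exc L f p) :
    2 ^ E.card ≤ (map (algebraMap L Ω) F).degreeOf i := by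
  obtain ⟨s, hs1, hs2, hs3⟩ := exc_fam L f E hE
  rw [← hs1]
  refine card_factors _ ?_ s (fun σ => cj σ f) (fun σ _ => cj_irr σ hf) hs3
    (fun σ hσ => cj_dvd L f F hdiv σ (hs2 σ hσ).1) i (fun σ _ => by rw [cj_deg]; exact hi)
  intro h
  exact hF0 (map_injective _ (algebraMap L Ω).injective (by rw [h, map_zero]))

end Pool.Agent.H33.TH2
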