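import Pool.Agent.H33.TH2.Cnj

/-!
# HYPERSURFACES, Cnt: the number of twists of conjugates

See the header of H33/TH2/Cnj.
-/

set_option autoImplicit false
set_option linter.unusedSectionVars false

open MvPolynomial

namespace Pool.Agent.H33.TH2

open Pool.Agent.H33.TR Pool.Agent.H72.PB Pool.Agent.H11.TH

private theorem assoc_coeff {Ω : Type} [Field Ω] {k : ℕ} {F G : MvPolynomial (Fin k) Ω} (h : Associated F G) :
    ∃ u : Ω, ∀ m, G.coeff m = u * F.coeff m := by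
  obtain ⟨u, hu⟩ := h
  obtain ⟨r, -, hr⟩ := isUnit_iff_eq_C_of_isReduced.1 u.isUnit
  refine ⟨r, fun m => ?_⟩
  rw [← hu, hr, mul_comm, coeff_C_mul]

/-- the twist in two coordinates -/
private def cc {Ω : Type} [Field Ω] {k : ℕ} (ζ : Ωˣ) (i j : Fin k) (a b : ℕ) : Tor Ω k := fun l =>
  if l = i then ζ ^ a else if l = j then ζ ^ b else 1

private theorem cc_prod {Ω : Type} [Field Ω] {k : ℕ} (ζ : Ωˣ) (i j : Fin k) (hij : i ≠ j) (a b : ℕ)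
    (m : Fin k →₀ ℕ) : ∏ l, crd (cc ζ i j a b) l ^ m l = (ζ : Ω) ^ (a * m i + b * m j) := by
  rw [← Finset.mul_prod_erase Finset.univ _ (Finset.mem_univ i),
    ← Finset.mul_prod_erase (Finset.univ.erase i) _ (Finset.mem_erase.2 ⟨hij.symm, Finset.mem_univ j⟩)]
  have e1 : crd (cc ζ i j a b) i = (ζ : Ω) ^ a := by
    unfold crd cc
    rw [if_pos rfl, Units.val_pow_eq_pow_val]
  have e2 : crd (cc ζ i j a b) j = (ζ : Ω) ^ b := by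
    unfold crd cc
    rw [if_neg hij.symm, if_pos rfl, Units.val_pow_eq_pow_val]
  have e3 : ∏ l ∈ (Finset.univ.erase i).erase j, crd (cc ζ i j a b) l ^ m l = 1 := by
    refine Finset.prod_eq_one fun l hl => ?_
    rw [Finset.mem_erase, Finset.mem_erase] at hl
    unfold crd cc
    rw [if_neg hl.2.1, if_neg hl.1, Units.val_one, one_pow]
  rw [e1, e2, e3, mul_one, ← pow_mul, ← pow_mul, ← pow_add]

private theorem cc_pow {Ω : Type} [Field Ω] {k : ℕ} (ζ : Ωˣ) (i j : Fin k) (p : ℕ) (hζ : ζ ^ p = 1)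
    (a b : ℕ) : cc ζ i j a b ^ p = 1 := by
  funext l
  rw [Pi.pow_apply]
  unfold cc
  split_ifs
  · rw [← pow_mul, mul_comm, pow_mul, hζ, one_pow]
    rfl
  · rw [← pow_mul, mul_comm, pow_mul, hζ, one_pow]
    rfl
  · rw [one_pow]
    rfl

private theorem twist_inj {Ω : Type} [Field Ω] {k : ℕ} (p : ℕ) (hp : p.Prime) (ζ : Ωˣ)
    (hζ : IsPrimitiveRoot (ζ : Ω) p) (g : MvPolynomial (Fin k) Ω) (m₀ m₁ m₂ : Fin k →₀ ℕ)
    (h₀ : m₀ ∈ g.support) (h₁ : m₁ ∈ g.support) (h₂ : m₂ ∈ g.support) (i j : Fin k) (hij : i ≠ j)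
    (hΔ : ¬ (p : ℤ) ∣ ((m₁ i : ℤ) - m₀ i) * ((m₂ j : ℤ) - m₀ j) -
      ((m₁ j : ℤ) - m₀ j) * ((m₂ i : ℤ) - m₀ i)) (a b : Fin p × Fin p)
    (h : Associated (tw (crd (cc ζ i j a.1 a.2)) g) (tw (crd (cc ζ i j b.1 b.2)) g)) : a = b := by
  obtain ⟨u, hu⟩ := assoc_coeff h
  have hζ0 : (ζ : Ω) ≠ 0 := ζ.ne_zero
  obtain ⟨Δ, hΔe⟩ : ∃ Δ : ℤ, Δ = ((m₁ i : ℤ) - m₀ i) * ((m₂ j : ℤ) - m₀ j) -
    ((m₁ j : ℤ) - m₀ j) * ((m₂ i : ℤ) - m₀ i) := ⟨_, rfl⟩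
  rw [← hΔe] at hΔ
  have key : ∀ m ∈ g.support, (ζ : Ω) ^ ((b.1 : ℕ) * m i + (b.2 : ℕ) * m j) =
      u * (ζ : Ω) ^ ((a.1 : ℕ) * m i + (a.2 : ℕ) * m j) := by
    intro m hm
    have h1 := hu m
    rw [coeff_tw, coeff_tw, cc_prod ζ i j hij, cc_prod ζ i j hij, ← mul_assoc] at h1
    exact mul_right_cancel₀ (mem_support_iff.1 hm) h1
  have hu0 : u ≠ 0 := by
    intro h0
    have h1 := key m₀ h₀
    rw [h0, zero_mul] at h1
    exact pow_ne_zero _ hζ0 h1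
  have hz : ∀ m ∈ g.support, (ζ : Ω) ^ ((((b.1 : ℕ) : ℤ) - (a.1 : ℕ)) * m i +
      (((b.2 : ℕ) : ℤ) - (a.2 : ℕ)) * m j) = u := by
    intro m hm
    have h1 := key m hm
    have h2 : ((((b.1 : ℕ) : ℤ) - (a.1 : ℕ)) * m i + (((b.2 : ℕ) : ℤ) - (a.2 : ℕ)) * m j) =
        (((b.1 : ℕ) * m i + (b.2 : ℕ) * m j : ℕ) : ℤ) - (((a.1 : ℕ) * m i + (a.2 : ℕ) * m j : ℕ) : ℤ) := by
      push_cast
      ring
    rw [h2, zpow_sub₀ hζ0, zpow_natCast, zpow_natCast, h1, mul_div_assoc,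
      div_self (pow_ne_zero _ hζ0), mul_one]
  have hd : ∀ m ∈ g.support, (p : ℤ) ∣ (((b.1 : ℕ) : ℤ) - (a.1 : ℕ)) * ((m i : ℤ) - m₀ i) +
      (((b.2 : ℕ) : ℤ) - (a.2 : ℕ)) * ((m j : ℤ) - m₀ j) := by
    intro m hm
    rw [← hζ.zpow_eq_one_iff_dvd]
    have h2 : (((b.1 : ℕ) : ℤ) - (a.1 : ℕ)) * ((m i : ℤ) - m₀ i) +
        (((b.2 : ℕ) : ℤ) - (a.2 : ℕ)) * ((m j : ℤ) - m₀ j) =
        ((((b.1 : ℕ) : ℤ) - (a.1 : ℕ)) * m i + (((b.2 : ℕ) : ℤ) - (a.2 : ℕ)) * m j) -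
        ((((b.1 : ℕ) : ℤ) - (a.1 : ℕ)) * m₀ i + (((b.2 : ℕ) : ℤ) - (a.2 : ℕ)) * m₀ j) := by ring
    rw [h2, zpow_sub₀ hζ0, hz m hm, hz m₀ h₀, div_self hu0]
  have d1 := hd m₁ h₁
  have d2 := hd m₂ h₂
  have hpp : Prime (p : ℤ) := Nat.prime_iff_prime_int.1 hp
  have a1 : (p : ℤ) ∣ (((b.1 : ℕ) : ℤ) - (a.1 : ℕ)) * Δ := by
    have h1 := (d1.mul_right ((m₂ j : ℤ) - m₀ j)).sub (d2.mul_right ((m₁ j : ℤ) - m₀ j))
    have h2 : (((b.1 : ℕ) : ℤ) - (a.1 : ℕ)) * Δ =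
        ((((b.1 : ℕ) : ℤ) - (a.1 : ℕ)) * ((m₁ i : ℤ) - m₀ i) +
        (((b.2 : ℕ) : ℤ) - (a.2 : ℕ)) * ((m₁ j : ℤ) - m₀ j)) * ((m₂ j : ℤ) - m₀ j) -
        ((((b.1 : ℕ) : ℤ) - (a.1 : ℕ)) * ((m₂ i : ℤ) - m₀ i) +
        (((b.2 : ℕ) : ℤ) - (a.2 : ℕ)) * ((m₂ j : ℤ) - m₀ j)) * ((m₁ j : ℤ) - m₀ j) := by
      rw [hΔe]
      ring
    rw [h2]
    exact h1
  have a2 : (p : ℤ) ∣ (((b.2 : ℕ) : ℤ) - (a.2 : ℕ)) * Δ := by
    have h1 := (d2.mul_right ((m₁ i : ℤ) - m₀ i)).sub (d1.mul_right ((m₂ i : ℤ) - m₀ i))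
    have h2 : (((b.2 : ℕ) : ℤ) - (a.2 : ℕ)) * Δ =
        ((((b.1 : ℕ) : ℤ) - (a.1 : ℕ)) * ((m₂ i : ℤ) - m₀ i) +
        (((b.2 : ℕ) : ℤ) - (a.2 : ℕ)) * ((m₂ j : ℤ) - m₀ j)) * ((m₁ i : ℤ) - m₀ i) -
        ((((b.1 : ℕ) : ℤ) - (a.1 : ℕ)) * ((m₁ i : ℤ) - m₀ i) +
        (((b.2 : ℕ) : ℤ) - (a.2 : ℕ)) * ((m₁ j : ℤ) - m₀ j)) * ((m₂ i : ℤ) - m₀ i) := by
      rw [hΔe]
      ring
    rw [h2]
    exact h1
  have hzero : ∀ x y : Fin p, (p : ℤ) ∣ (((y : ℕ) : ℤ) - (x : ℕ)) → x = y := by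
    intro x y h
    have hx := x.2
    have hy := y.2
    have h1 : ((y : ℕ) : ℤ) - (x : ℕ) = 0 := by
      by_contra hne
      have h2 := Int.le_of_dvd (abs_pos.2 hne) ((dvd_abs _ _).2 h)
      have h3 : |((y : ℕ) : ℤ) - (x : ℕ)| < p := by
        rw [abs_lt]
        constructor <;> omega
      omega
    apply Fin.ext
    omega
  exact Prod.ext (hzero _ _ ((hpp.dvd_or_dvd a1).resolve_right hΔ))
    (hzero _ _ ((hpp.dvd_or_dvd a2).resolve_right hΔ))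

variable {K Ω : Type} [Field K] [Field Ω] [Algebra K Ω] {k : ℕ}

theorem count [IsAlgClosed Ω] [CharZero Ω] (L : IntermediateField K Ω) (f : MvPolynomial (Fin k) Ω)
    (hf : Irreducible f) (p : ℕ) (hp : p.Prime) (hexc : ¬ Exc L f p) (m₀ m₁ m₂ : Fin k →₀ ℕ)
    (h₀ : m₀ ∈ f.support) (h₁ : m₁ ∈ f.support) (h₂ : m₂ ∈ f.support) (i j : Fin k)
    (hΔ : ¬ (p : ℤ) ∣ ((m₁ i : ℤ) - m₀ i) * ((m₂ j : ℤ) - m₀ j) -
      ((m₁ j : ℤ) - m₀ j) * ((m₂ i : ℤ) - m₀ i)) (s : Finset (Ω ≃ₐ[K] Ω))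
    (hs : ∀ σ ∈ s, ∀ z ∈ L, σ z = z)
    (hs2 : ∀ σ ∈ s, ∀ τ ∈ s, σ ≠ τ → ¬ Associated (cj σ f) (cj τ f))
    (G : MvPolynomial (Fin k) Ω) (hG : G ≠ 0) (M : ℕ) (hM : G.degreeOf i ≤ M)
    (hdiv : ∀ σ ∈ s, cj σ f ∣ expand p G) : p * (s.card * f.degreeOf i) ≤ M := by
  classical
  have hij : i ≠ j := by
    rintro rfl
    apply hΔ
    rw [sub_self]
    exact dvd_zero _
  have : NeZero (p : Ω) := ⟨by exact_mod_cast hp.ne_zero⟩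
  obtain ⟨ζ₀, hζ₀⟩ := HasEnoughRootsOfUnity.exists_primitiveRoot Ω p
  obtain ⟨ζ, hζe⟩ : ∃ ζ : Ωˣ, (ζ : Ω) = ζ₀ := ⟨Units.mk0 ζ₀ (hζ₀.ne_zero hp.ne_zero), rfl⟩
  rw [← hζe] at hζ₀
  have hζp : ζ ^ p = 1 := by
    apply Units.ext
    rw [Units.val_pow_eq_pow_val, hζ₀.pow_eq_one, Units.val_one]
  have hcount := card_factors_w (expand p G) ((expand_ne_zero hp.pos).2 hG)
    (s ×ˢ (Finset.univ : Finset (Fin p × Fin p)))
    (fun a => tw (crd (cc ζ i j a.2.1 a.2.2)) (cj a.1 f)) ?_ ?_ ?_ i (f.degreeOf i) ?_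
  · rw [Finset.card_product, Finset.card_univ, Fintype.card_prod, Fintype.card_fin] at hcount
    have h1 := hcount.trans (degreeOf_expand_le p hp.ne_zero G i M hM)
    have h2 : s.card * (p * p) * f.degreeOf i = p * (p * (s.card * f.degreeOf i)) := by ring
    rw [h2] at h1
    exact Nat.le_of_mul_le_mul_left h1 hp.pos
  · intro a _
    exact tw_irr _ (fun l => Units.ne_zero _) _ (cj_irr a.1 hf)
  · rintro ⟨σ, a⟩ ha ⟨τ, b⟩ hb hab h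
    have hσ := (Finset.mem_product.1 ha).1
    have hτ := (Finset.mem_product.1 hb).1
    simp only at hσ hτ h
    by_cases hst : σ = τ
    · subst hst
      apply hab
      have h3 := twist_inj p hp ζ hζ₀ (cj σ f) m₀ m₁ m₂ (by rw [cj_supp]; exact h₀)
        (by rw [cj_supp]; exact h₁) (by rw [cj_supp]; exact h₂) i j hij hΔ a b h
      rw [h3]
    · have h4 := assoc_tw h (crd (cc ζ i j a.1 a.2)⁻¹)
      rw [tw_mul, tw_mul, inv_mul_cancel, tw_one] at h4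
      have h5 := cj_assoc τ⁻¹ h4
      rw [cj_tw, ← cj_mul, ← cj_mul, inv_mul_cancel, cj_one] at h5
      have h6 : Associated (cj (τ⁻¹ * σ) f) f := by
        by_contra hcon
        refine hexc ⟨τ⁻¹ * σ, _, ?_, ?_, h5, hcon⟩
        · intro z hz
          rw [AlgEquiv.mul_apply, hs σ hσ z hz]
          have h7 := hs τ hτ z hz
          exact (AlgEquiv.symm_apply_eq τ).2 h7.symm
        · exact mv_pow _ _ _ (by
            rw [mul_pow, inv_pow, cc_pow ζ i j p hζp, cc_pow ζ i j p hζp, inv_one, one_mul])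
      have h7 := cj_assoc τ h6
      rw [← cj_mul, mul_inv_cancel_left] at h7
      exact hs2 σ hσ τ hτ hst h7
  · rintro ⟨σ, a⟩ ha
    have hσ := (Finset.mem_product.1 ha).1
    obtain ⟨q, hq⟩ := hdiv σ hσ
    have h1 := tw_expand p (crd (cc ζ i j a.1 a.2)) (fun l => by
      have h2 := congrFun (cc_pow ζ i j p hζp a.1 a.2) l
      have h3 := congrArg Units.val h2
      exact h3) G
    rw [← h1, hq, map_mul]
    exact Dvd.intro _ rfl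
  · rintro ⟨σ, a⟩ _
    refine le_of_eq ?_
    simp only
    rw [degreeOf_eq_sup, degreeOf_eq_sup]
    have h1 : (tw (crd (cc ζ i j a.1 a.2)) (cj σ f)).support = f.support := by
      rw [← cj_supp σ f]
      ext m
      rw [mem_support_iff, mem_support_iff, coeff_tw]
      constructor
      · intro h h0
        exact h (by rw [h0, mul_zero])
      · intro h
        exact mul_ne_zero (Finset.prod_ne_zero_iff.2 fun l _ => pow_ne_zero _ (Units.ne_zero _)) h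
    rw [h1]

end Pool.Agent.H33.TH2
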