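import Pool.Agent.H33.TH2.Glo
import Pool.Agent.H33.TH2.Cnt
import Pool.Agent.H33.TH2.Chb
import Pool.Agent.H33.TR.Ker
import Pool.Agent.H72.PB.HTwist

/-!
# HYPERSURFACES, Geo: hypersurfaces which are not translates of subgroups

`f` irreducible over `Ω`, of degree at most `D` in each variable, `X` a set of points of `G_m^k` of height at most `θ`, dense in `f = 0`:
`c(k) ≤ (log_2 D + 1)³ D θ`, or the differences of the exponents of `f` are pairwise dependent.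
Proof: let `D` be the maximum of the degrees, `E = ⌊log_2 D⌋ + 1`, `T = 2 k E`, `B = 4 k T`, `Δ ≠ 0` a minor, `|Δ| ≤ 2 D²`, in
coordinates `i`, `j` with `deg_i f = D`, `p` a prime in `(2 B, 64 (2 B + 2 E + 1)²]` which does not divide `Δ` (`many`, `sel`), `M + 1 = B D`.
By `glo` and `rel_of_det` there is `G ≠ 0` of degree at most `M` with `f ∣ G(x^p)`, and `count` gives `p D ≤ M < B D`, a contradiction.
-/

set_option autoImplicit false
set_option linter.unusedSectionVars false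

open MvPolynomial NumberField

namespace Pool.Agent.H33.TH2

open Pool.Agent.H33.TR Pool.Agent.H72.PB Pool.Agent.H11.TH

private theorem num_ineq (k E D T M p Z B : ℕ) (hk : 1 ≤ k) (hE : 1 ≤ E) (hD : 1 ≤ D)
    (hT : T = 2 * k * E) (hB : B = 4 * k * T) (hZ : D ≤ Z ^ E) (hM : M + 1 = B * D)
    (hp : B * Z < p) (θ : ℝ) (hθ : 8 * ((p * M : ℕ) : ℝ) * θ ≤ 1) :
    Real.log (((M + 1) ^ k).factorial : ℕ) + ((M + 1) ^ k : ℕ) * (((p * M : ℕ) : ℝ) * θ) <
      (T * (M - T * D + 1) ^ k : ℕ) * Real.log p := by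
  obtain ⟨N, hN⟩ : ∃ N : ℕ, N = (M + 1) ^ k := ⟨_, rfl⟩
  rw [← hN]
  have hT2 : 2 ≤ T := by
    rw [hT]
    nlinarith
  have hB1 : 8 ≤ B := by
    rw [hB]
    nlinarith
  have hZ1 : 1 ≤ Z := by
    by_contra h
    have h0 : Z = 0 := by omega
    rw [h0, zero_pow (by omega)] at hZ
    omega
  have hN1 : 1 ≤ N := by
    rw [hN]
    exact Nat.one_le_pow _ _ (Nat.succ_pos _)
  have hNr : (1 : ℝ) ≤ N := by exact_mod_cast hN1
  have hp2 : 2 ≤ p := by nlinarith
  have hpr : (2 : ℝ) ≤ p := by exact_mod_cast hp2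
  have hlogp : 0.69 < Real.log p := by
    have h1 := Real.log_two_gt_d9
    have h2 : Real.log 2 ≤ Real.log p := Real.log_le_log (by norm_num) hpr
    linarith
  have hTr : (2 : ℝ) ≤ T := by exact_mod_cast hT2
  -- the factorial
  have h1 : Real.log (N.factorial : ℕ) ≤ N * ((T / 2) * Real.log p) := by
    have e1 : ((N.factorial : ℕ) : ℝ) ≤ (N : ℝ) ^ N := by exact_mod_cast Nat.factorial_le_pow N
    have e2 : Real.log (N.factorial : ℕ) ≤ N * Real.log N := by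
      have := Real.log_le_log (by exact_mod_cast Nat.factorial_pos N) e1
      rwa [Real.log_pow] at this
    have e3 : Real.log N ≤ (T / 2) * Real.log p := by
      have e4 : N ^ 2 ≤ p ^ T := by
        calc N ^ 2 = (B * D) ^ (2 * k) := by
              rw [hN, hM, ← pow_mul, mul_comm k 2]
          _ ≤ (B * Z ^ E) ^ (2 * k) := Nat.pow_le_pow_left (Nat.mul_le_mul_left _ hZ) _
          _ = B ^ (2 * k) * Z ^ T := by
              rw [mul_pow, ← pow_mul, hT]
              congr 2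
              ring
          _ ≤ B ^ T * Z ^ T := by
              refine Nat.mul_le_mul_right _ (Nat.pow_le_pow_right (by omega) ?_)
              rw [hT]
              exact Nat.le_mul_of_pos_right _ hE
          _ = (B * Z) ^ T := (mul_pow _ _ _).symm
          _ ≤ p ^ T := Nat.pow_le_pow_left hp.le _
      have e5 : ((N : ℝ)) ^ 2 ≤ (p : ℝ) ^ T := by exact_mod_cast e4
      have e6 := Real.log_le_log (by positivity) e5
      rw [Real.log_pow, Real.log_pow] at e6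
      push_cast at e6
      linarith
    exact e2.trans (mul_le_mul_of_nonneg_left e3 (by linarith))
  -- the number of relations
  have hTD : 1 ≤ T * D := Nat.mul_pos (by omega) hD
  have hM4 : M + 1 = 4 * k * (T * D) := by
    rw [hM, hB]
    ring
  have h2 : (3 / 4 : ℝ) * N ≤ ((M - T * D + 1) ^ k : ℕ) := by
    have hn0 : (0 : ℝ) < k := by exact_mod_cast hk
    have e1 : ((M - T * D + 1 : ℕ) : ℝ) = (1 + (-(1 / (4 * k)))) * ((M + 1 : ℕ) : ℝ) := by
      have e2 : M - T * D + 1 + T * D = M + 1 := by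
        have : T * D ≤ M := by
          have : 4 * (T * D) ≤ 4 * k * (T * D) := by nlinarith
          omega
        omega
      have e3 : ((M - T * D + 1 : ℕ) : ℝ) = ((M + 1 : ℕ) : ℝ) - (T * D : ℕ) := by
        rw [← e2]
        push_cast
        ring
      rw [e3, hM4]
      push_cast
      field_simp
      ring
    have e2 : (-2 : ℝ) ≤ -(1 / (4 * k)) := by
      have : (1 : ℝ) / (4 * k) ≤ 1 := by
        rw [div_le_one (by positivity)]
        have : (1 : ℝ) ≤ k := by exact_mod_cast hk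
        linarith
      linarith
    have e3 := one_add_mul_le_pow e2 k
    have e4 : (1 : ℝ) + k * (-(1 / (4 * k))) = 3 / 4 := by
      field_simp
      norm_num
    rw [e4] at e3
    rw [hN]
    push_cast
    have e5 : ((M - T * D : ℕ) : ℝ) + 1 = ((M - T * D + 1 : ℕ) : ℝ) := by push_cast; ring
    rw [e5, e1, mul_pow]
    push_cast
    exact mul_le_mul_of_nonneg_right e3 (by positivity)
  have h3 : (N : ℝ) * (((p * M : ℕ) : ℝ) * θ) ≤ N * (1 / 8) :=
    mul_le_mul_of_nonneg_left (by linarith) (by linarith)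
  have h4 : (T : ℝ) * ((3 / 4 : ℝ) * N) * Real.log p ≤ (T * (M - T * D + 1) ^ k : ℕ) * Real.log p := by
    refine mul_le_mul_of_nonneg_right ?_ (by linarith)
    rw [Nat.cast_mul]
    exact mul_le_mul_of_nonneg_left h2 (by linarith)
  have h5 : (1.38 : ℝ) < T * Real.log p := by nlinarith
  have h6 : (N : ℝ) * (1 / 8) < N * ((T * Real.log p) / 4) := by
    refine mul_lt_mul_of_pos_left ?_ (by linarith)
    linarith
  have h7 : (T : ℝ) * ((3 / 4 : ℝ) * N) * Real.log p =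
      N * ((T / 2) * Real.log p) + N * ((T * Real.log p) / 4) := by ring
  linarith

theorem const_of_deg {R : Type} [Field R] {k : ℕ} (f : MvPolynomial (Fin k) R)
    (h : ∀ l, f.degreeOf l = 0) : f = C (f.coeff 0) := by
  classical
  refine MvPolynomial.ext _ _ fun m => ?_
  by_cases hm : m = 0
  · rw [hm, coeff_C, if_pos rfl]
  · rw [coeff_C, if_neg (Ne.symm hm)]
    by_contra hne
    apply hm
    ext l
    have h1 := monomial_le_degreeOf l (mem_support_iff.2 hne)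
    rw [h l] at h1
    simpa using h1

theorem X_dvd_of {R : Type} [Field R] {k : ℕ} (f : MvPolynomial (Fin k) R) (i : Fin k)
    (h : ∀ m ∈ f.support, m i ≠ 0) : X i ∣ f := by
  classical
  rw [f.as_sum]
  refine Finset.dvd_sum fun m hm => ?_
  rw [X_dvd_monomial]
  exact Or.inr (h m hm)

/-- the case of a nonzero minor -/
private theorem geo_aux (K : Type) {Ω : Type} [Field K] [NumberField K] [Field Ω] [CharZero Ω] [IsAlgClosed Ω]
    [Algebra K Ω] [IsGalois K Ω] (k E D T M p Z B : ℕ) (hk : 1 ≤ k) (hE : 1 ≤ E) (hD : 1 ≤ D)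
    (hT : T = 2 * k * E) (hB : B = 4 * k * T) (hZ : D ≤ Z ^ E) (hM : M + 1 = B * D)
    (hp : B * Z < p) (hpp : p.Prime) (θ : ℝ) (hθ : 8 * ((p * M : ℕ) : ℝ) * θ ≤ 1)
    (f : MvPolynomial (Fin k) Ω) (hf : Irreducible f) (X : Set (Tor Ω k))
    (hX : idl X = Ideal.span {f}) (hfD : ∀ l, f.degreeOf l ≤ D) (hXθ : ∀ x ∈ X, ht x ≤ θ)
    (m₀ m₁ m₂ : Fin k →₀ ℕ) (h₀ : m₀ ∈ f.support) (h₁ : m₁ ∈ f.support) (h₂ : m₂ ∈ f.support)
    (i j : Fin k) (hi : f.degreeOf i = D)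
    (hΔ : ¬ (p : ℤ) ∣ ((m₁ i : ℤ) - m₀ i) * ((m₂ j : ℤ) - m₀ j) -
      ((m₁ j : ℤ) - m₀ j) * ((m₂ i : ℤ) - m₀ i)) : False := by
  classical
  have hZ1 : 1 ≤ Z := by
    by_contra h
    have h0 : Z = 0 := by omega
    rw [h0, zero_pow (by omega)] at hZ
    omega
  have hT2 : 2 ≤ T := by
    rw [hT]
    nlinarith
  have hB1 : 8 ≤ B := by
    rw [hB]
    nlinarith
  have hp2 : p ≠ 2 := by nlinarith
  have hTDM : T * D ≤ M := by
    have h1 : 4 * (T * D) ≤ B * D := by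
      rw [hB]
      nlinarith [Nat.mul_pos (by omega : 0 < T) (by omega : 0 < D)]
    have h2 : 1 ≤ T * D := Nat.mul_pos (by omega) hD
    omega
  obtain ⟨S, hS⟩ : ∃ S : Set (Bx k M → Ω), S = {s | ∃ x ∈ X, s = fun m => mn m (crd x) ^ p} := ⟨_, rfl⟩
  have hf0 : ∀ x ∈ X, aeval (crd x) f = 0 := by
    intro x hx
    have h1 : f ∈ idl X := by
      rw [hX]
      exact Ideal.mem_span_singleton_self f
    exact mem_idl.1 h1 x hx
  have hdet : ∀ y : Bx k M → Bx k M → Ω, (∀ i, y i ∈ S) → Matrix.det (Matrix.of y) = 0 := by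
    intro y hy
    rw [hS] at hy
    choose x hx hyx using hy
    have h1 := glo p hpp hp2 hTDM (fun m : Bx k D => f.coeff (bxf m)) ?_
      (fun m => int_all K _) (fun i => crd (x i)) (fun i l => int_all K _) ?_ θ (fun i => hXθ _ (hx i))
      (num_ineq k E D T M p Z B hk hE hD hT hB hZ hM hp θ hθ)
    · rw [← h1]
      congr 1
      ext i m
      rw [Matrix.of_apply, Matrix.of_apply, hyx i]
    · intro h
      apply hf.ne_zero
      refine MvPolynomial.ext _ _ fun m => ?_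
      rw [coeff_zero]
      by_contra hne
      obtain ⟨m', hm'⟩ := bxf_surj m fun l =>
        (monomial_le_degreeOf l (mem_support_iff.2 hne)).trans (hfD l)
      have h2 := congrFun h m'
      simp only [Pi.zero_apply] at h2
      rw [hm'] at h2
      exact hne h2
    · intro i
      have h2 := hf0 (x i) (hx i)
      rw [aeval_box f hfD] at h2
      exact h2
  obtain ⟨g, hg0, hg⟩ := rel_of_det S hdet
  have hdvd : f ∣ expand p (bxp g) := by
    rw [← Ideal.mem_span_singleton, ← hX, mem_idl]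
    intro x hx
    rw [aeval_bxp]
    exact hg _ (by
      rw [hS]
      exact ⟨x, hx, rfl⟩)
  have hcount := count (K := K) (⊤ : IntermediateField K Ω) f hf p hpp (by
    rintro ⟨σ, c, hσ, -, -, h⟩
    apply h
    have h1 : σ = 1 := AlgEquiv.ext fun z => hσ z IntermediateField.mem_top
    rw [h1, cj_one]) m₀ m₁ m₂ h₀ h₁ h₂ i j hΔ {1} (fun σ hσ z _ => by
      rw [Finset.mem_singleton] at hσ
      rw [hσ]
      rfl) (fun σ hσ τ hτ h => by
      rw [Finset.mem_singleton] at hσ hτ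
      exact absurd (hσ.trans hτ.symm) h) (bxp g) (bxp_ne_zero g hg0) M (bxp_deg g i) (fun σ hσ => by
      rw [Finset.mem_singleton] at hσ
      rw [hσ, cj_one]
      exact hdvd)
  rw [Finset.card_singleton, one_mul, hi] at hcount
  have h1 : B * D ≤ p * D := Nat.mul_le_mul_right _ ((Nat.le_mul_of_pos_right _ hZ1).trans hp.le)
  omega

theorem geo (k : ℕ) : ∃ c : ℝ, 0 < c ∧
    ∀ (K Ω : Type) [Field K] [NumberField K] [Field Ω] [CharZero Ω] [IsAlgClosed Ω] [Algebra K Ω]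
      [IsGalois K Ω] (f : MvPolynomial (Fin k) Ω) (X : Set (Tor Ω k)) (D : ℕ) (θ : ℝ),
      Irreducible f → idl X = Ideal.span {f} → 1 ≤ D → (∀ l, f.degreeOf l ≤ D) →
      (∀ x ∈ X, ht x ≤ θ) → c ≤ (((Nat.log 2 D + 1) ^ 3 * D : ℕ) : ℝ) * θ ∨
        ∀ m₀ ∈ f.support, ∀ m₁ ∈ f.support, ∀ m₂ ∈ f.support, ∀ i j,
          ((m₁ i : ℤ) - m₀ i) * ((m₂ j : ℤ) - m₀ j) = ((m₁ j : ℤ) - m₀ j) * ((m₂ i : ℤ) - m₀ i) := by
  classical
  obtain ⟨Cn, hCn⟩ : ∃ Cn : ℕ, Cn = 8 * (64 * (16 * k ^ 2 + 3) ^ 2) * (8 * k ^ 2) + 1 := ⟨_, rfl⟩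
  have hC1 : (1 : ℝ) ≤ Cn := by
    rw [hCn]
    exact_mod_cast Nat.le_add_left _ _
  refine ⟨1 / Cn, by positivity, ?_⟩
  intro K Ω _ _ _ _ _ _ _ f X D θ hf hX hD hfD hXθ
  by_contra hcon
  rw [not_or] at hcon
  obtain ⟨hc, hmin⟩ := hcon
  push Not at hc hmin
  obtain ⟨m₀, h₀, v₁, hv₁, v₂, hv₂, i', j', hne⟩ := hmin
  have hprime : (idl X).IsPrime := by
    rw [hX, Ideal.span_singleton_prime hf.ne_zero]
    exact hf.prime
  obtain ⟨x₀, hx₀⟩ := prime_nonempty hprime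
  have hθ0 : 0 ≤ θ := by
    refine le_trans ?_ (hXθ x₀ hx₀)
    unfold ht
    exact Finset.sum_nonneg fun l _ => ht_nonneg _
  -- the coordinate of the largest degree
  have : Nonempty (Fin k) := ⟨i'⟩
  have hk : 1 ≤ k := by
    have := i'.2
    omega
  obtain ⟨i, -, hmax⟩ := Finset.exists_max_image (Finset.univ : Finset (Fin k)) (fun l => f.degreeOf l)
    Finset.univ_nonempty
  obtain ⟨D₀, hD₀⟩ : ∃ D₀ : ℕ, f.degreeOf i = D₀ := ⟨_, rfl⟩
  have hfD₀ : ∀ l, f.degreeOf l ≤ D₀ := fun l => (hmax l (Finset.mem_univ l)).trans hD₀.le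
  have hD₀1 : 1 ≤ D₀ := by
    by_contra h
    have h0 : ∀ l, f.degreeOf l = 0 := fun l => by
      have := hfD₀ l
      omega
    have h1 := const_of_deg f h0
    have h2 : f.coeff 0 ≠ 0 := by
      intro h3
      apply hf.ne_zero
      rw [h1, h3, C_0]
    apply hf.not_isUnit
    rw [h1]
    exact (isUnit_iff_ne_zero.2 h2).map C
  have hD₀D : D₀ ≤ D := hD₀ ▸ hfD i
  -- an exponent with a different coordinate `i`
  obtain ⟨u, hu, hui⟩ : ∃ u ∈ f.support, (u i : ℤ) - m₀ i ≠ 0 := by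
    by_contra h
    push Not at h
    have h1 : ∀ m ∈ f.support, m i = m₀ i := fun m hm => by
      have := h m hm
      omega
    have h2 : m₀ i ≠ 0 := by
      intro h3
      have h4 : f.degreeOf i = 0 := by
        rw [← Nat.le_zero, degreeOf_le_iff]
        intro m hm
        rw [h1 m hm, h3]
      omega
    obtain ⟨q, hq⟩ := X_dvd_of f i fun m hm => by rw [h1 m hm]; exact h2
    have h3 : aeval (crd x₀) f = 0 := by
      have h1 : f ∈ idl X := by
        rw [hX]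
        exact Ideal.mem_span_singleton_self f
      exact mem_idl.1 h1 x₀ hx₀
    rcases hf.isUnit_or_isUnit hq with h4 | h4
    · have h6 := h4.map (aeval (fun _ : Fin k => (0 : Ω)))
      rw [aeval_X] at h6
      exact not_isUnit_zero h6
    · have h5 := h4.map (aeval (crd x₀))
      rw [hq, map_mul, aeval_X] at h3
      rcases mul_eq_zero.1 h3 with h6 | h6
      · exact (x₀ i).ne_zero h6
      · rw [h6] at h5
        exact not_isUnit_zero h5
  obtain ⟨w, hw, j, hΔ0⟩ : ∃ w ∈ f.support, ∃ j, ((u i : ℤ) - m₀ i) * ((w j : ℤ) - m₀ j) -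
      ((u j : ℤ) - m₀ j) * ((w i : ℤ) - m₀ i) ≠ 0 := by
    by_contra h
    push Not at h
    apply hne
    have e1 := h v₁ hv₁ i'
    have e2 := h v₁ hv₁ j'
    have e3 := h v₂ hv₂ i'
    have e4 := h v₂ hv₂ j'
    apply mul_left_cancel₀ (mul_ne_zero hui hui)
    linear_combination (((u i : ℤ) - m₀ i) * ((v₂ j' : ℤ) - m₀ j')) * e1 -
      (((u i : ℤ) - m₀ i) * ((v₂ i' : ℤ) - m₀ i')) * e2 -
      (((u j' : ℤ) - m₀ j') * ((v₁ i : ℤ) - m₀ i)) * e3 + (((u i' : ℤ) - m₀ i') * ((v₁ i : ℤ) - m₀ i)) * e4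
  have hdiff : ∀ m ∈ f.support, ∀ l, |(m l : ℤ) - m₀ l| ≤ D₀ := by
    intro m hm l
    have e1 := (monomial_le_degreeOf l hm).trans (hfD₀ l)
    have e2 := (monomial_le_degreeOf l h₀).trans (hfD₀ l)
    rw [abs_le]
    constructor <;> omega
  have hΔD : |((u i : ℤ) - m₀ i) * ((w j : ℤ) - m₀ j) -
      ((u j : ℤ) - m₀ j) * ((w i : ℤ) - m₀ i)| ≤ ((2 * D₀ ^ 2 : ℕ) : ℤ) := by
    have hD0 : (0 : ℤ) ≤ D₀ := Int.natCast_nonneg D₀
    calc _ ≤ |((u i : ℤ) - m₀ i) * ((w j : ℤ) - m₀ j)| + |((u j : ℤ) - m₀ j) * ((w i : ℤ) - m₀ i)| :=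
          abs_sub _ _
      _ ≤ D₀ * D₀ + D₀ * D₀ := by
          rw [abs_mul, abs_mul]
          exact add_le_add (mul_le_mul (hdiff u hu i) (hdiff w hw j) (abs_nonneg _) hD0)
            (mul_le_mul (hdiff u hu j) (hdiff w hw i) (abs_nonneg _) hD0)
      _ = ((2 * D₀ ^ 2 : ℕ) : ℤ) := by push_cast; ring
  -- the parameters
  obtain ⟨E, hE⟩ : ∃ E : ℕ, E = Nat.log 2 D₀ + 1 := ⟨_, rfl⟩
  have hE1 : 1 ≤ E := by omega
  have hZ : D₀ ≤ 2 ^ E := by
    rw [hE]
    exact (Nat.lt_pow_succ_log_self (by norm_num) D₀).le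
  obtain ⟨T, hT⟩ : ∃ T : ℕ, T = 2 * k * E := ⟨_, rfl⟩
  obtain ⟨B, hB⟩ : ∃ B : ℕ, B = 4 * k * T := ⟨_, rfl⟩
  have hT2 : 2 ≤ T := by
    rw [hT]
    nlinarith
  have hB8 : 8 ≤ B := by
    rw [hB]
    nlinarith
  obtain ⟨s, hs1, hs2⟩ := many (B * 2) (2 * E + 1) (by omega)
  obtain ⟨p, hps, hpΔ⟩ := sel E (B * 2) D₀ (hZ.trans (Nat.pow_le_pow_left (by omega) E)) (by omega) _ hΔ0 hΔD
    s hs1 fun p hp => ⟨(hs2 p hp).1, (hs2 p hp).2.1⟩
  obtain ⟨hp, hp1, hp2⟩ := hs2 p hps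
  obtain ⟨M, hM⟩ : ∃ M : ℕ, M + 1 = B * D₀ := ⟨B * D₀ - 1, by
    have : 1 ≤ B * D₀ := Nat.mul_pos (by omega) (by omega)
    omega⟩
  refine geo_aux K k E D₀ T M p 2 B hk hE1 hD₀1 hT hB hZ hM hp1 hp θ ?_ f hf X hX hfD₀ hXθ m₀ u w h₀ hu hw
    i j hD₀ hpΔ
  -- the size
  have hEE : E ≤ Nat.log 2 D + 1 := by
    rw [hE]
    exact Nat.succ_le_succ (Nat.log_mono_right hD₀D)
  have e1 : 8 * (p * M) ≤ Cn * ((Nat.log 2 D + 1) ^ 3 * D) := by
    have h1 : B * 2 + (2 * E + 1) ≤ (16 * k ^ 2 + 3) * E := by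
      rw [hB, hT]
      nlinarith
    have h2 : p ≤ 64 * ((16 * k ^ 2 + 3) * E) ^ 2 :=
      hp2.trans (Nat.mul_le_mul_left _ (Nat.pow_le_pow_left h1 2))
    have h3 : M ≤ 8 * k ^ 2 * E * D₀ := by
      have h4 : B * D₀ = 8 * k ^ 2 * E * D₀ := by
        rw [hB, hT]
        ring
      omega
    calc 8 * (p * M) ≤ 8 * (64 * ((16 * k ^ 2 + 3) * E) ^ 2 * (8 * k ^ 2 * E * D₀)) :=
          Nat.mul_le_mul_left _ (Nat.mul_le_mul h2 h3)
      _ = (8 * (64 * (16 * k ^ 2 + 3) ^ 2) * (8 * k ^ 2)) * (E ^ 3 * D₀) := by ring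
      _ ≤ Cn * ((Nat.log 2 D + 1) ^ 3 * D) := by
          refine Nat.mul_le_mul (by rw [hCn]; omega) (Nat.mul_le_mul (Nat.pow_le_pow_left hEE 3) hD₀D)
  have e2 : 8 * ((p * M : ℕ) : ℝ) ≤ (Cn : ℝ) * (((Nat.log 2 D + 1) ^ 3 * D : ℕ) : ℝ) := by
    exact_mod_cast e1
  calc 8 * ((p * M : ℕ) : ℝ) * θ ≤ ((Cn : ℝ) * (((Nat.log 2 D + 1) ^ 3 * D : ℕ) : ℝ)) * θ :=
        mul_le_mul_of_nonneg_right e2 hθ0
    _ = ((((Nat.log 2 D + 1) ^ 3 * D : ℕ) : ℝ) * θ) * Cn := by ring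
    _ ≤ 1 := by
        rw [lt_div_iff₀ (by linarith)] at hc
        exact hc.le

end Pool.Agent.H33.TH2
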