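import Pool.Agent.H33.TH2.Geo
import Pool.Agent.H33.TR.Fin

/-!
# HYPERSURFACES: the transfer with the exponent of the points and a power of a logarithm

`K` a number field, `Ω` an algebraic closure, `L` any field between them, `Λ` a subgroup of `Ωˣ`, `Γ ⊂ G_m^n(Ω)` a subgroup which
contains all points with coordinates in `Λ`. Suppose `c₁ ≤ Φ(deg_L γ) h(γ)` for all `γ` having no power in `Λ`, with `Φ ≥ 0`,
`Φ(a) b ≤ Φ(a b)` for `a, b ≥ 1` (such as `Φ(a) = Q a (log (3 Q a))^κ`).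
* `tr_H`: `V` a hypersurface (`idl V` is the ideal generated by `f`), `Γ`-transverse, contained in a closed set `Z ≠ G_m^n` over `L`,
  of pure dimension `d'` and degree `δ`, `ω = δ^(1/(n-d'))`. Then `c ≤ ω (log (3 ω))^3 θ`, with `c > 0` depending only on `n`,
  or `c₁ ≤ Φ(ω) θ`.
Proof: by `geo` the first, or all exponents of `f` are on a line (`rank_one`): `x^e = γ` on `V`, `|e_l| ≤ max_l deg_l f`, and
`deg_L γ deg_l f ≤ ω` by `omega_lower`.
-/

set_option autoImplicit false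
set_option linter.unusedSectionVars false

open MvPolynomial NumberField

namespace Pool.Agent.H33.TH2

open Pool.Agent.H33.TR Pool.Agent.H72.PB Pool.Agent.H11.TH

/-- the logarithms -/
theorem log_bound (D : ℕ) (hD : 1 ≤ D) (ω : ℝ) (hω : (D : ℝ) ≤ ω) :
    (((Nat.log 2 D + 1) ^ 3 * D : ℕ) : ℝ) ≤ 8 * (ω * Real.log (3 * ω) ^ 3) := by
  have hD1 : (1 : ℝ) ≤ D := by exact_mod_cast hD
  have h1 : (Nat.log 2 D : ℝ) * Real.log 2 ≤ Real.log D := by
    have h2 : ((2 ^ Nat.log 2 D : ℕ) : ℝ) ≤ (D : ℝ) := by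
      exact_mod_cast Nat.pow_log_le_self 2 (by omega)
    have h3 := Real.log_le_log (by positivity) h2
    push_cast at h3
    rwa [Real.log_pow] at h3
  have h2 := Real.log_two_gt_d9
  have h3 : Real.log D ≤ Real.log ω := Real.log_le_log (by linarith) hω
  have h4 : Real.log (3 * ω) = Real.log 3 + Real.log ω := Real.log_mul (by norm_num) (by linarith)
  have h5 : (1 : ℝ) ≤ Real.log 3 := by
    have h6 : Real.log (Real.exp 1) ≤ Real.log 3 :=
      Real.log_le_log (Real.exp_pos 1) (by have := Real.exp_one_lt_d9; linarith)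
    rwa [Real.log_exp] at h6
  have h6 : 0 ≤ Real.log D := Real.log_nonneg hD1
  have h7 : (Nat.log 2 D : ℝ) + 1 ≤ 2 * Real.log (3 * ω) := by
    rw [h4]
    nlinarith [Nat.cast_nonneg (α := ℝ) (Nat.log 2 D)]
  push_cast
  have h8 : ((Nat.log 2 D : ℝ) + 1) ^ 3 ≤ (2 * Real.log (3 * ω)) ^ 3 :=
    pow_le_pow_left₀ (by positivity) h7 3
  calc ((Nat.log 2 D : ℝ) + 1) ^ 3 * D ≤ (2 * Real.log (3 * ω)) ^ 3 * ω :=
        mul_le_mul h8 hω (by linarith) (by
          have : 0 ≤ Real.log (3 * ω) := by linarith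
          positivity)
    _ = 8 * (ω * Real.log (3 * ω) ^ 3) := by ring

theorem tr_H (n : ℕ) : ∃ c : ℝ, 0 < c ∧
    ∀ (K Ω : Type) [Field K] [NumberField K] [Field Ω] [CharZero Ω] [IsAlgClosed Ω] [Algebra K Ω]
      [IsGalois K Ω] (Φ : ℝ → ℝ) (_ : ∀ a : ℝ, 1 ≤ a → 0 ≤ Φ a)
      (_ : ∀ a b : ℝ, 1 ≤ a → 1 ≤ b → Φ a * b ≤ Φ (a * b)) (c₁ : ℝ)
      (Λ : Subgroup Ωˣ) (L : IntermediateField K Ω)
      (_ : ∀ γ : Ωˣ, (∀ m : ℕ, 1 ≤ m → γ ^ m ∉ Λ) → c₁ ≤ Φ (dg L (γ : Ω)) * absLogHeight₁ (γ : Ω))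
      (Γ : Subgroup (Tor Ω n)) (_ : ∀ x : Tor Ω n, (∀ l, x l ∈ Λ) → x ∈ Γ)
      (V : Set (Tor Ω n)) (_ : (idl V).IsPrime) (_ : Transv K Γ V)
      (f : MvPolynomial (Fin n) Ω) (_ : idl V = Ideal.span {f})
      (Z : Set (Tor Ω n)) (d' : ℕ) (δ ω : ℝ) (_ : ClosedOver L Z) (_ : Z ≠ Set.univ)
      (_ : Equidim Z d') (_ : HasDeg Z d' δ) (_ : V ⊆ Z) (_ : δ ^ (1 / ((n : ℝ) - d')) ≤ ω)
      (θ : ℝ) (_ : idl {x | x ∈ V ∧ ht x ≤ θ} ≤ idl V),
      1 ≤ ω ∧ 0 ≤ θ ∧ (c ≤ (ω * Real.log (3 * ω) ^ 3) * θ ∨ c₁ ≤ Φ ω * θ) := by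
  classical
  obtain ⟨c, hc, hgeo⟩ := geo n
  refine ⟨c / 8, by positivity, ?_⟩
  intro K Ω _ _ _ _ _ _ _ Φ hΦ0 hΦ c₁ Λ L hL Γ hΓ V hV htr f hf Z d' δ ω hZ hZne hZd hZδ hVZ hω θ hθ
  have hZbot := idl_ne_bot L Z hZ hZne
  have hZV : idl Z ≤ idl V := by
    intro p hp
    rw [mem_idl] at hp ⊢
    exact fun x hx => hp x (hVZ hx)
  have hf0 : f ≠ 0 := by
    rintro rfl
    apply hZbot
    rw [eq_bot_iff]
    refine hZV.trans ?_
    rw [hf]
    simp
  have hirr : Irreducible f := by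
    rw [hf, Ideal.span_singleton_prime hf0] at hV
    exact hV.irreducible
  obtain ⟨X, hX⟩ : ∃ X : Set (Tor Ω n), X = {x | x ∈ V ∧ ht x ≤ θ} := ⟨_, rfl⟩
  rw [← hX] at hθ
  have hXV : X ⊆ V := by
    rw [hX]
    exact fun x hx => hx.1
  have hidl : idl X = idl V := by
    refine le_antisymm hθ fun p hp => ?_
    rw [mem_idl] at hp ⊢
    exact fun x hx => hp x (hXV hx)
  have hXp : (idl X).IsPrime := by
    rw [hidl]
    exact hV
  obtain ⟨x₁, hx₁⟩ := prime_nonempty hXp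
  have hxθ : ∀ x ∈ X, ht x ≤ θ := by
    rw [hX]
    exact fun x hx => hx.2
  have hθ0 : 0 ≤ θ := by
    refine le_trans ?_ (hxθ x₁ hx₁)
    unfold ht
    exact Finset.sum_nonneg fun l _ => ht_nonneg _
  -- the largest degree
  obtain ⟨i₀, hi₀⟩ : ∃ i, f.degreeOf i ≠ 0 := by
    by_contra h
    push Not at h
    have h1 := const_of_deg f h
    have h2 : f.coeff 0 ≠ 0 := by
      intro h3
      apply hf0
      rw [h1, h3, C_0]
    apply hirr.not_isUnit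
    rw [h1]
    exact (isUnit_iff_ne_zero.2 h2).map C
  have : Nonempty (Fin n) := ⟨i₀⟩
  obtain ⟨i, -, hmax⟩ := Finset.exists_max_image (Finset.univ : Finset (Fin n)) (fun l => f.degreeOf l)
    Finset.univ_nonempty
  obtain ⟨D, hD⟩ : ∃ D : ℕ, f.degreeOf i = D := ⟨_, rfl⟩
  have hfD : ∀ l, f.degreeOf l ≤ D := fun l => (hmax l (Finset.mem_univ l)).trans hD.le
  have hD1 : 1 ≤ D := (Nat.one_le_iff_ne_zero.2 hi₀).trans (hfD i₀)
  have hD1r : (1 : ℝ) ≤ D := by exact_mod_cast hD1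
  have hom : ∀ (e : Fin n → ℤ) (γ : Ωˣ), (∀ x ∈ V, ch e x = γ) →
      (dg L (γ : Ω) : ℝ) * (D : ℝ) ≤ ω := by
    intro e γ hγ
    have h1 := omega_lower L V f hf Z d' δ hZ hZne hZd hZδ hVZ e γ hγ i
    rw [hD] at h1
    exact h1.trans hω
  have hDω : (D : ℝ) ≤ ω := by
    have h1 := hom 0 1 (fun x _ => by unfold ch; simp)
    have h2 : (1 : ℝ) ≤ dg L ((1 : Ωˣ) : Ω) := by
      exact_mod_cast dg_pos L ((1 : Ωˣ) : Ω)
    exact (le_mul_of_one_le_left (by linarith) h2).trans h1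
  refine ⟨hD1r.trans hDω, hθ0, ?_⟩
  rcases hgeo K Ω f X D θ hirr (hidl.trans hf) hD1 hfD hxθ with hbig | hrk
  · left
    have h1 := mul_le_mul_of_nonneg_right (log_bound D hD1 ω hDω) hθ0
    rw [div_le_iff₀ (by norm_num)]
    calc c ≤ _ := hbig
      _ ≤ 8 * (ω * Real.log (3 * ω) ^ 3) * θ := h1
      _ = _ := by ring
  · right
    obtain ⟨F, hF⟩ : ∃ F : MvPolynomial (Fin n) (⊤ : IntermediateField K Ω),
        F = map ((IntermediateField.topEquiv (F := K) (E := Ω)).symm : Ω →+* (⊤ : IntermediateField K Ω)) f :=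
      ⟨_, rfl⟩
    have hFf : map (algebraMap (⊤ : IntermediateField K Ω) Ω) F = f := by
      rw [hF, map_map]
      have h1 : (algebraMap (⊤ : IntermediateField K Ω) Ω).comp
          ((IntermediateField.topEquiv (F := K) (E := Ω)).symm : Ω →+* (⊤ : IntermediateField K Ω)) =
          RingHom.id Ω := RingHom.ext fun z => rfl
      rw [h1, map_id]
    have hFD : ∀ l, F.degreeOf l ≤ D := by
      intro l
      rw [hF, degreeOf_le_iff]
      intro m hm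
      exact (monomial_le_degreeOf l (support_map_subset _ f hm)).trans (hfD l)
    obtain ⟨e, γ, he0, heD, heX, -⟩ := rank_one (⊤ : IntermediateField K Ω) X hXp D F (by
      intro h0
      apply hf0
      rw [← hFf, h0, map_zero]) hFD f hirr (by rw [hFf]) (by
      rw [hidl, hf]
      exact Ideal.mem_span_singleton_self f) hrk
    have heV : ∀ x ∈ V, ch e x = γ := by
      obtain ⟨i, -, h⟩ := irr_cover hV (le_of_eq hidl) ({()} : Finset Unit) (fun _ => e) (fun _ => γ)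
        (fun x hx => ⟨(), Finset.mem_singleton_self _, heX x hx⟩)
      exact h
    have hsat := not_sat (K := K) Λ Γ hΓ V hV htr e he0 γ heV
    have h2 := hL γ hsat
    have h3 : absLogHeight₁ (γ : Ω) ≤ D * θ := by
      rw [← heX x₁ hx₁]
      refine (ht_ch (K := K) e x₁ D ?_).trans (mul_le_mul_of_nonneg_left (hxθ x₁ hx₁) (by linarith))
      intro l
      have h4 : ((|e l| : ℤ) : ℝ) ≤ ((D : ℤ) : ℝ) := by exact_mod_cast heD l
      rw [Int.cast_abs] at h4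
      exact h4
    have h5 : (1 : ℝ) ≤ dg L (γ : Ω) := by exact_mod_cast dg_pos L (γ : Ω)
    have h6 := hom e γ heV
    have h7 : Φ (dg L (γ : Ω)) * D ≤ Φ (dg L (γ : Ω) * D) := hΦ _ _ h5 hD1r
    have h8 : (1 : ℝ) ≤ dg L (γ : Ω) * D := by nlinarith
    have h9 : Φ (dg L (γ : Ω) * D) ≤ Φ ω := by
      have h10 : 1 ≤ ω / (dg L (γ : Ω) * D) := by rwa [one_le_div (by linarith)]
      have h11 := hΦ (dg L (γ : Ω) * D) _ h8 h10
      rw [mul_div_cancel₀ _ (by linarith)] at h11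
      exact (le_mul_of_one_le_right (hΦ0 _ h8) h10).trans h11
    calc c₁ ≤ Φ (dg L (γ : Ω)) * absLogHeight₁ (γ : Ω) := h2
      _ ≤ Φ (dg L (γ : Ω)) * (D * θ) := mul_le_mul_of_nonneg_left h3 (hΦ0 _ h5)
      _ = (Φ (dg L (γ : Ω)) * D) * θ := by ring
      _ ≤ Φ ω * θ := mul_le_mul_of_nonneg_right (h7.trans h9) hθ0

end Pool.Agent.H33.TH2
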