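import Pool.Agent.H33.TR.Ird

/-!
# HYPERSURFACES, Loc: the local inequality with multiplicities

`v` a nonarchimedean absolute value, `Prm v P`: all coefficients of `P` have absolute value at most `1`, one has absolute value `1`.
* `prm_mul`, `prm_pow` (Gauss).
* `loc_gen`: `q` a family of coefficients (box `{0..D}^k`) with maximum `1`, `v (∑ q_m z_i^m) ≤ ε ∏ max(1, |z_il|)^D` for all `i`:
  `v (det (z_i^m)) ≤ ε^((M+1-D)^k) ∏_i ∏_l max(1, |z_il|)^M`.
* `loc_T`: `∑_m a_m y_i^m = 0` for all `i` (`m ∈ {0..D}^k`, `a ≠ 0`), `T D ≤ M`: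
  `v (det (y_i^(p m))) ≤ v(p)^(T (M+1-TD)^k) ∏_i H(y_i)^(p M)`: `loc_gen` for the `T`-th power of `∑ a'_m^p X^m`.
-/

set_option autoImplicit false
set_option linter.unusedSectionVars false

open MvPolynomial

namespace Pool.Agent.H33.TH2

open Pool.Agent.H33.TR

/-- primitive with respect to `v` -/
def Prm {E : Type} [Field E] (v : AbsoluteValue E ℝ) {k : ℕ} (P : MvPolynomial (Fin k) E) : Prop :=
  (∀ m, v (P.coeff m) ≤ 1) ∧ ∃ m, v (P.coeff m) = 1

private theorem sum_le {E : Type} [Field E] (v : AbsoluteValue E ℝ) (hv : IsNonarchimedean v) {I : Type}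
    (s : Finset I) (f : I → E) (r : ℝ) (hr : 0 ≤ r) (h : ∀ i ∈ s, v (f i) ≤ r) : v (∑ i ∈ s, f i) ≤ r := by
  rcases s.eq_empty_or_nonempty with rfl | hs
  · rw [Finset.sum_empty, map_zero]
    exact hr
  · obtain ⟨i, hi, hle⟩ := hv.finset_image_add_of_nonempty f hs
    exact hle.trans (h i hi)

private theorem sum_lt {E : Type} [Field E] (v : AbsoluteValue E ℝ) (hv : IsNonarchimedean v) {I : Type}
    (s : Finset I) (f : I → E) (h : ∀ i ∈ s, v (f i) < 1) : v (∑ i ∈ s, f i) < 1 := by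
  rcases s.eq_empty_or_nonempty with rfl | hs
  · rw [Finset.sum_empty, map_zero]
    exact one_pos
  · obtain ⟨i, hi, hle⟩ := hv.finset_image_add_of_nonempty f hs
    exact lt_of_le_of_lt hle (h i hi)

/-- the leading exponent -/
private theorem lead {E : Type} [Field E] (v : AbsoluteValue E ℝ) {k : ℕ} (P : MvPolynomial (Fin k) E)
    (hP : Prm v P) : ∃ m₀, v (P.coeff m₀) = 1 ∧ ∀ m, toLex m₀ < toLex m → v (P.coeff m) < 1 := by
  classical
  obtain ⟨h1, m₁, hm₁⟩ := hP
  have hne : (P.support.filter fun m => v (P.coeff m) = 1).Nonempty := by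
    refine ⟨m₁, Finset.mem_filter.2 ⟨mem_support_iff.2 ?_, hm₁⟩⟩
    intro h
    rw [h, map_zero] at hm₁
    exact zero_ne_one hm₁
  obtain ⟨m₀, hm₀, hmax⟩ := Finset.exists_max_image _ (fun m => (toLex m : Lex (Fin k →₀ ℕ))) hne
  refine ⟨m₀, (Finset.mem_filter.1 hm₀).2, fun m hm => lt_of_le_of_ne (h1 m) fun h => ?_⟩
  refine absurd (hmax m (Finset.mem_filter.2 ⟨mem_support_iff.2 ?_, h⟩)) (not_le.2 hm)
  intro h0
  rw [h0, map_zero] at h
  exact zero_ne_one h

theorem prm_mul {E : Type} [Field E] (v : AbsoluteValue E ℝ) (hv : IsNonarchimedean v) {k : ℕ}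
    (P Q : MvPolynomial (Fin k) E) (hP : Prm v P) (hQ : Prm v Q) : Prm v (P * Q) := by
  classical
  refine ⟨fun m => ?_, ?_⟩
  · rw [coeff_mul]
    refine sum_le v hv _ _ 1 zero_le_one fun x _ => ?_
    rw [map_mul]
    exact mul_le_one₀ (hP.1 _) (v.nonneg _) (hQ.1 _)
  · obtain ⟨m₀, h1, h2⟩ := lead v P hP
    obtain ⟨n₀, h3, h4⟩ := lead v Q hQ
    refine ⟨m₀ + n₀, ?_⟩
    have hmem : (m₀, n₀) ∈ Finset.HasAntidiagonal.antidiagonal (m₀ + n₀) := Finset.HasAntidiagonal.mem_antidiagonal.2 rfl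
    rw [coeff_mul, ← Finset.add_sum_erase _ _ hmem]
    have e1 : v (P.coeff m₀ * Q.coeff n₀) = 1 := by rw [map_mul, h1, h3, one_mul]
    have e2 : v (∑ x ∈ (Finset.HasAntidiagonal.antidiagonal (m₀ + n₀)).erase (m₀, n₀), P.coeff x.1 * Q.coeff x.2) < 1 := by
      refine sum_lt v hv _ _ fun x hx => ?_
      obtain ⟨hne, hx⟩ := Finset.mem_erase.1 hx
      have hx' : x.1 + x.2 = m₀ + n₀ := Finset.HasAntidiagonal.mem_antidiagonal.1 hx
      rw [map_mul]
      rcases lt_trichotomy (toLex x.1 : Lex (Fin k →₀ ℕ)) (toLex m₀) with h | h | h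
      · have h5 : (toLex n₀ : Lex (Fin k →₀ ℕ)) < toLex x.2 := by
          by_contra hcon
          push Not at hcon
          have h6 : (toLex x.1 + toLex x.2 : Lex (Fin k →₀ ℕ)) < toLex m₀ + toLex n₀ :=
            add_lt_add_of_lt_of_le h hcon
          exact absurd (congrArg (fun z => (toLex z : Lex (Fin k →₀ ℕ))) hx') h6.ne
        calc v (P.coeff x.1) * v (Q.coeff x.2) ≤ 1 * v (Q.coeff x.2) :=
              mul_le_mul_of_nonneg_right (hP.1 _) (v.nonneg _)
          _ < 1 := by rw [one_mul]; exact h4 _ h5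
      · exfalso
        have h5 : x.1 = m₀ := toLex.injective h
        apply hne
        rw [h5] at hx'
        exact Prod.ext h5 (add_left_cancel hx')
      · calc v (P.coeff x.1) * v (Q.coeff x.2) ≤ v (P.coeff x.1) * 1 :=
              mul_le_mul_of_nonneg_left (hQ.1 _) (v.nonneg _)
          _ < 1 := by rw [mul_one]; exact h2 _ h
    have h5 := hv.add_eq_max_of_ne (x := P.coeff m₀ * Q.coeff n₀)
      (y := ∑ x ∈ (Finset.HasAntidiagonal.antidiagonal (m₀ + n₀)).erase (m₀, n₀), P.coeff x.1 * Q.coeff x.2)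
      (by rw [e1]; exact e2.ne')
    rw [h5, e1, max_eq_left e2.le]

theorem prm_pow {E : Type} [Field E] (v : AbsoluteValue E ℝ) (hv : IsNonarchimedean v) {k : ℕ}
    (P : MvPolynomial (Fin k) E) (hP : Prm v P) (T : ℕ) : Prm v (P ^ T) := by
  classical
  induction T with
  | zero =>
    rw [pow_zero]
    refine ⟨fun m => ?_, 0, ?_⟩
    · rw [coeff_one]
      split_ifs
      · rw [map_one]
      · rw [map_zero]
        exact zero_le_one
    · rw [coeff_one, if_pos rfl, map_one]
  | succ T ih =>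
    rw [pow_succ]
    exact prm_mul v hv _ _ ih hP

private theorem phi_eq {k M : ℕ} (m : Bx k M) :
    ((finFunctionFinEquiv m : Fin ((M + 1) ^ k)) : ℕ) = ∑ l : Fin k, (m l : ℕ) * (M + 1) ^ (l : ℕ) :=
  finFunctionFinEquiv_apply m

private theorem ext0_val {E : Type} [Field E] {k D : ℕ} (a : Bx k D → E) (m : Bx k D) (z : Fin k → ℤ)
    (h : ∀ l, z l = ((m l : ℕ) : ℤ)) : ext0 a z = a m := by
  unfold ext0
  rw [dif_pos (fun l => by
    have h1 := (m l).2
    have h2 := h l
    omega)]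
  congr 1
  funext l
  apply Fin.ext
  simp only
  rw [h l]
  omega

private theorem ext0_cases {E : Type} [Field E] {k D : ℕ} (a : Bx k D → E) (z : Fin k → ℤ) :
    ext0 a z = 0 ∨ ∃ m : Bx k D, (∀ l, z l = ((m l : ℕ) : ℤ)) ∧ ext0 a z = a m := by
  by_cases h : ∀ l, 0 ≤ z l ∧ z l ≤ (D : ℤ)
  · right
    have h1 : ∀ l, (z l).toNat < D + 1 := fun l => by
      have := h l
      omega
    have h2 : ∀ l, z l = (((⟨(z l).toNat, h1 l⟩ : Fin (D + 1)) : ℕ) : ℤ) := fun l => by
      have := h l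
      simp only
      omega
    exact ⟨fun l => ⟨(z l).toNat, h1 l⟩, h2, ext0_val a _ z h2⟩
  · left
    unfold ext0
    rw [dif_neg h]

private theorem mn_shf {E : Type} [Field E] {k A B M : ℕ} (h : A + B ≤ M) (m : Bx k A) (μ : Bx k B)
    (y : Fin k → E) : mn (shf h m μ) y = mn m y * mn μ y := by
  unfold mn
  rw [← Finset.prod_mul_distrib]
  refine Finset.prod_congr rfl fun l _ => ?_
  rw [← pow_add]
  rfl

theorem loc_gen {E : Type} [Field E] (v : AbsoluteValue E ℝ) (hv : IsNonarchimedean v)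
    {k D M : ℕ} (hDM : D ≤ M) (q : Bx k D → E) (hq1 : ∀ m, v (q m) ≤ 1) (hq : ∃ m, v (q m) = 1)
    (z : Bx k M → Fin k → E) (ε : ℝ) (hε : 0 ≤ ε)
    (hz : ∀ i, v (∑ m, q m * mn m (z i)) ≤ ε * ∏ l, (max 1 (v (z i l))) ^ D) :
    v (Matrix.det (Matrix.of fun i m : Bx k M => mn m (z i))) ≤
      ε ^ ((M - D + 1) ^ k) * ∏ i, ∏ l, (max 1 (v (z i l))) ^ M := by
  classical
  obtain ⟨m₁, hm₁⟩ := hq
  -- the index of the largest weight
  obtain ⟨Ψ, hΨ⟩ : ∃ Ψ : Bx k D → ℤ, Ψ = fun m => ∑ l : Fin k, ((m l : ℕ) : ℤ) * ((M : ℤ) + 1) ^ (l : ℕ) :=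
    ⟨_, rfl⟩
  obtain ⟨m₀, hm₀, hmax⟩ := Finset.exists_max_image
    ((Finset.univ : Finset (Bx k D)).filter (fun m => v (q m) = 1)) Ψ
    ⟨m₁, Finset.mem_filter.2 ⟨Finset.mem_univ _, hm₁⟩⟩
  have hm₀1 : v (q m₀) = 1 := (Finset.mem_filter.1 hm₀).2
  have hlt : ∀ m, Ψ m₀ < Ψ m → v (q m) < 1 := by
    intro m hm
    refine lt_of_le_of_ne (hq1 m) fun h => ?_
    exact absurd (hmax m (Finset.mem_filter.2 ⟨Finset.mem_univ _, h⟩)) (not_le.2 hm)
  -- the set of the columns
  have hDM' : D + (M - D) ≤ M := by omega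
  obtain ⟨sh, hsh⟩ : ∃ sh : Bx k (M - D) → Bx k M, sh = shf hDM' m₀ := ⟨_, rfl⟩
  have hshv : ∀ μ l, ((sh μ l : Fin (M + 1)) : ℕ) = (m₀ l : ℕ) + (μ l : ℕ) := by
    intro μ l
    rw [hsh]
    rfl
  have hshi : Function.Injective sh := by
    intro μ ν h
    funext l
    apply Fin.ext
    have h1 := congrArg (fun f : Bx k M => ((f l : Fin (M + 1)) : ℕ)) h
    simp only [hshv] at h1
    omega
  obtain ⟨T, hT⟩ : ∃ T : Finset (Bx k M), T = Finset.univ.image sh := ⟨_, rfl⟩
  have hTc : T.card = (M - D + 1) ^ k := by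
    rw [hT, Finset.card_image_of_injective _ hshi, Finset.card_univ, Fintype.card_fun, Fintype.card_fin,
      Fintype.card_fin]
  -- the matrix of the column operations
  obtain ⟨P, hP⟩ : ∃ P : Matrix (Bx k M) (Bx k M) E, P = Matrix.of fun m' m =>
      if m ∈ T then ext0 q (fun l => ((m' l : ℕ) : ℤ) - (m l : ℕ) + (m₀ l : ℕ))
      else if m' = m then 1 else 0 := ⟨_, rfl⟩
  have hQ1 : ∀ z, v (ext0 q z) ≤ 1 := by
    intro z
    rcases ext0_cases q z with h | ⟨m, -, h⟩
    · rw [h, map_zero]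
      exact zero_le_one
    · rw [h]
      exact hq1 m
  have hPdet : v P.det = 1 := by
    refine unimod v hv (fun m => ((finFunctionFinEquiv m : Fin ((M + 1) ^ k)) : ℕ))
      (fun m m' h => finFunctionFinEquiv.injective (Fin.ext h)) P ?_ ?_ ?_
    · intro i j
      rw [hP, Matrix.of_apply]
      split_ifs
      · exact hQ1 _
      · rw [map_one]
      · rw [map_zero]
        exact zero_le_one
    · intro j
      rw [hP, Matrix.of_apply, if_pos rfl]
      split_ifs
      · rw [ext0_val q m₀ _ (fun l => by ring), hm₀1]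
      · exact map_one v
    · intro i j hij
      rw [hP, Matrix.of_apply]
      split_ifs with h1 h2
      · rcases ext0_cases q (fun l => ((i l : ℕ) : ℤ) - (j l : ℕ) + (m₀ l : ℕ)) with h | ⟨m, h4, h⟩
        · rw [h, map_zero]
          exact one_pos
        · rw [h]
          refine hlt _ ?_
          rw [phi_eq, phi_eq] at hij
          rw [hΨ]
          simp only
          simp only [← h4]
          have h5 : (∑ l : Fin k, ((j l : ℕ) : ℤ) * ((M : ℤ) + 1) ^ (l : ℕ)) <
              ∑ l : Fin k, ((i l : ℕ) : ℤ) * ((M : ℤ) + 1) ^ (l : ℕ) := by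
            exact_mod_cast hij
          have h6 : ∑ l : Fin k, (((i l : ℕ) : ℤ) - (j l : ℕ) + (m₀ l : ℕ)) * ((M : ℤ) + 1) ^ (l : ℕ) =
              ∑ l : Fin k, ((i l : ℕ) : ℤ) * ((M : ℤ) + 1) ^ (l : ℕ) -
              ∑ l : Fin k, ((j l : ℕ) : ℤ) * ((M : ℤ) + 1) ^ (l : ℕ) +
              ∑ l : Fin k, ((m₀ l : ℕ) : ℤ) * ((M : ℤ) + 1) ^ (l : ℕ) := by
            rw [← Finset.sum_sub_distrib, ← Finset.sum_add_distrib]
            refine Finset.sum_congr rfl fun l _ => ?_
            ring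
          rw [h6]
          linarith
      · exfalso
        rw [h2] at hij
        exact lt_irrefl _ hij
      · rw [map_zero]
        exact one_pos
  -- the new matrix
  obtain ⟨Y, hY⟩ : ∃ Y : Matrix (Bx k M) (Bx k M) E, Y = Matrix.of fun i m : Bx k M => mn m (z i) :=
    ⟨_, rfl⟩
  obtain ⟨H, hH⟩ : ∃ H : Bx k M → ℝ, H = fun i => ∏ l, (max 1 (v (z i l))) ^ M := ⟨_, rfl⟩
  have hone : ∀ i l, (1 : ℝ) ≤ max 1 (v (z i l)) := fun i l => le_max_left _ _
  have hYH : ∀ i m, v (Y i m) ≤ H i := by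
    intro i m
    rw [hY, Matrix.of_apply, hH]
    unfold mn
    rw [map_prod]
    refine Finset.prod_le_prod (fun l _ => v.nonneg _) fun l _ => ?_
    rw [map_pow]
    calc v (z i l) ^ (m l : ℕ) ≤ (max 1 (v (z i l))) ^ (m l : ℕ) :=
          pow_le_pow_left₀ (v.nonneg _) (le_max_right _ _) _
      _ ≤ (max 1 (v (z i l))) ^ M :=
          pow_le_pow_right₀ (hone i l) (by have := (m l).2; omega)
  have hdet : v Y.det = v (Y * P).det := by
    rw [Matrix.det_mul, map_mul, hPdet, mul_one]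
  rw [← hY, hdet, ← hTc]
  have hgoal := det_le v hv (Y * P) H ε T ?_ ?_
  · rw [hH] at hgoal
    exact hgoal
  · -- all entries
    intro i m
    by_cases hm : m ∈ T
    · rw [Matrix.mul_apply]
      obtain ⟨m', -, hle⟩ := hv.finset_image_add_of_nonempty
        (fun m' : Bx k M => Y i m' * P m' m) (Finset.univ_nonempty (α := Bx k M))
      refine hle.trans ?_
      rw [map_mul]
      calc v (Y i m') * v (P m' m) ≤ H i * 1 := by
            refine mul_le_mul (hYH i m') ?_ (v.nonneg _) ((v.nonneg _).trans (hYH i m'))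
            rw [hP, Matrix.of_apply, if_pos hm]
            exact hQ1 _
        _ = H i := mul_one _
    · have h1 : (Y * P) i m = Y i m := by
        rw [Matrix.mul_apply, Finset.sum_eq_single m]
        · rw [hP, Matrix.of_apply, if_neg hm, if_pos rfl, mul_one]
        · intro m' _ hne
          rw [hP, Matrix.of_apply, if_neg hm, if_neg hne, mul_zero]
        · intro h
          exact absurd (Finset.mem_univ m) h
      rw [h1]
      exact hYH i m
  · -- the entries of the new columns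
    intro i m hm
    rw [hT, Finset.mem_image] at hm
    obtain ⟨μ, -, rfl⟩ := hm
    have hmT : sh μ ∈ T := by
      rw [hT]
      exact Finset.mem_image_of_mem _ (Finset.mem_univ μ)
    rw [Matrix.mul_apply]
    have h1 : ∑ w : Bx k D, q w * (mn w (z i) * mn μ (z i)) = ∑ m', Y i m' * P m' (sh μ) := by
      refine Finset.sum_of_injOn (fun w => shf hDM' w μ) ?_ ?_ ?_ ?_
      · intro w _ w' _ h
        funext l
        apply Fin.ext
        have h2 := congrArg (fun f : Bx k M => ((f l : Fin (M + 1)) : ℕ)) h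
        change (w l : ℕ) + (μ l : ℕ) = (w' l : ℕ) + (μ l : ℕ) at h2
        omega
      · intro w _
        exact Finset.mem_coe.2 (Finset.mem_univ _)
      · intro m' _ hm'
        rw [hP, Matrix.of_apply, if_pos hmT]
        rcases ext0_cases q (fun l => ((m' l : ℕ) : ℤ) - (sh μ l : ℕ) + (m₀ l : ℕ)) with h | ⟨w, h4, h⟩
        · rw [h, mul_zero]
        · exfalso
          apply hm'
          refine ⟨w, Finset.mem_coe.2 (Finset.mem_univ _), ?_⟩
          funext l
          apply Fin.ext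
          change (w l : ℕ) + (μ l : ℕ) = (m' l : ℕ)
          have h5 := h4 l
          have h6 := hshv μ l
          omega
      · intro w _
        rw [hP, Matrix.of_apply, if_pos hmT, hY, Matrix.of_apply]
        rw [ext0_val q w _ (fun l => by
          rw [hshv]
          change (((w l : ℕ) + (μ l : ℕ) : ℕ) : ℤ) - _ + _ = _
          push_cast
          ring), mn_shf, mul_comm]
    rw [← h1]
    have h2 : ∑ w : Bx k D, q w * (mn w (z i) * mn μ (z i)) =
        (∑ w, q w * mn w (z i)) * mn μ (z i) := by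
      rw [Finset.sum_mul]
      exact Finset.sum_congr rfl fun w _ => by ring
    rw [h2, map_mul]
    have h4 : v (mn μ (z i)) ≤ ∏ l, (max 1 (v (z i l))) ^ (M - D) := by
      unfold mn
      rw [map_prod]
      refine Finset.prod_le_prod (fun l _ => v.nonneg _) fun l _ => ?_
      rw [map_pow]
      calc v (z i l) ^ (μ l : ℕ) ≤ (max 1 (v (z i l))) ^ (μ l : ℕ) :=
            pow_le_pow_left₀ (v.nonneg _) (le_max_right _ _) _
        _ ≤ (max 1 (v (z i l))) ^ (M - D) :=
            pow_le_pow_right₀ (hone i l) (by have := (μ l).2; omega)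
    have h5 : ε * (∏ l, (max 1 (v (z i l))) ^ D) * (∏ l, (max 1 (v (z i l))) ^ (M - D)) =
        ε * H i := by
      rw [hH, mul_assoc, ← Finset.prod_mul_distrib]
      congr 1
      refine Finset.prod_congr rfl fun l _ => ?_
      rw [← pow_add]
      congr 1
      omega
    rw [← h5]
    exact mul_le_mul (hz i) h4 (v.nonneg _) (mul_nonneg hε (Finset.prod_nonneg fun l _ =>
        pow_nonneg (zero_le_one.trans (hone i l)) _))

private theorem mn_pow {E : Type} [Field E] {k M : ℕ} (p : ℕ) (m : Bx k M) (y : Fin k → E) :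
    mn m (fun l => y l ^ p) = mn m y ^ p := by
  unfold mn
  rw [← Finset.prod_pow]
  refine Finset.prod_congr rfl fun l _ => ?_
  rw [← pow_mul, ← pow_mul, mul_comm]

theorem loc_T {E : Type} [Field E] (v : AbsoluteValue E ℝ) (hv : IsNonarchimedean v)
    (p : ℕ) (hp : p.Prime) (hp2 : p ≠ 2) {k D T M : ℕ} (hDM : T * D ≤ M) (a : Bx k D → E) (ha : a ≠ 0)
    (y : Bx k M → Fin k → E) (hy : ∀ i, ∑ m, a m * mn m (y i) = 0) :
    v (Matrix.det (Matrix.of fun i m : Bx k M => mn m (y i) ^ p)) ≤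
      v (p : E) ^ (T * (M - T * D + 1) ^ k) * ∏ i, ∏ l, (max 1 (v (y i l))) ^ (p * M) := by
  classical
  -- the entry of largest absolute value
  obtain ⟨m₁, -, hm₁⟩ := Finset.exists_max_image (Finset.univ : Finset (Bx k D)) (fun m => v (a m))
    Finset.univ_nonempty
  have hm₁' : ∀ m, v (a m) ≤ v (a m₁) := fun m => hm₁ m (Finset.mem_univ m)
  have ha₁ : a m₁ ≠ 0 := by
    intro h0
    apply ha
    funext m
    have h1 := hm₁' m
    rw [h0, map_zero] at h1
    exact v.eq_zero.1 (le_antisymm h1 (v.nonneg _))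
  have hva : 0 < v (a m₁) := v.pos ha₁
  obtain ⟨a', ha'⟩ : ∃ a' : Bx k D → E, a' = fun m => a m / a m₁ := ⟨_, rfl⟩
  have ha'1 : ∀ m, v (a' m) ≤ 1 := by
    intro m
    rw [ha', map_div₀, div_le_one hva]
    exact hm₁' m
  have ha'm₁ : v (a' m₁) = 1 := by
    rw [ha']
    change v (a m₁ / a m₁) = 1
    rw [div_self ha₁, map_one]
  have hy' : ∀ i, ∑ m, a' m * mn m (y i) = 0 := by
    intro i
    have h1 : ∑ m, a' m * mn m (y i) = (∑ m, a m * mn m (y i)) / a m₁ := by
      rw [Finset.sum_div]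
      refine Finset.sum_congr rfl fun m _ => ?_
      rw [ha']
      ring
    rw [h1, hy, zero_div]
  -- the polynomial
  obtain ⟨P, hP⟩ : ∃ P : MvPolynomial (Fin k) E, P = bxp (fun m : Bx k D => a' m ^ p) := ⟨_, rfl⟩
  have hPc : ∀ m : Bx k D, P.coeff (bxf m) = a' m ^ p := by
    intro m
    rw [hP, coeff_bxp]
  have hPD : ∀ l, P.degreeOf l ≤ D := by
    intro l
    rw [hP]
    exact bxp_deg _ l
  have hPp : Prm v P := by
    refine ⟨fun m => ?_, bxf m₁, ?_⟩
    · by_cases hm : ∀ l, m l ≤ D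
      · obtain ⟨m', rfl⟩ := bxf_surj m hm
        rw [hPc, map_pow]
        exact pow_le_one₀ (v.nonneg _) (ha'1 _)
      · push Not at hm
        obtain ⟨l, hl⟩ := hm
        have h1 : P.coeff m = 0 := by
          by_contra hne
          have h2 := monomial_le_degreeOf l (mem_support_iff.2 hne)
          have h3 := hPD l
          omega
        rw [h1, map_zero]
        exact zero_le_one
    · rw [hPc, map_pow, ha'm₁, one_pow]
  obtain ⟨hQ1, m₂, hm₂⟩ := prm_pow v hv P hPp T
  have hQD : ∀ l, (P ^ T).degreeOf l ≤ T * D := fun l =>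
    (degreeOf_pow_le l P T).trans (Nat.mul_le_mul_left _ (hPD l))
  have hone : ∀ i l, (1 : ℝ) ≤ max 1 (v (y i l)) := fun i l => le_max_left _ _
  have hmaxp : ∀ i l, max 1 (v (y i l ^ p)) = (max 1 (v (y i l))) ^ p := by
    intro i l
    rw [map_pow]
    rcases le_total (v (y i l)) 1 with h | h
    · rw [max_eq_left h, max_eq_left (pow_le_one₀ (v.nonneg _) h), one_pow]
    · rw [max_eq_right h, max_eq_right (one_le_pow₀ h)]
  have key := loc_gen v hv hDM (fun m : Bx k (T * D) => (P ^ T).coeff (bxf m)) (fun m => hQ1 _) (by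
    have hle : ∀ l, m₂ l ≤ T * D := by
      intro l
      by_contra hcon
      have h1 : (P ^ T).coeff m₂ = 0 := by
        by_contra hne
        have h2 := monomial_le_degreeOf l (mem_support_iff.2 hne)
        have h3 := hQD l
        omega
      rw [h1, map_zero] at hm₂
      exact zero_ne_one hm₂
    obtain ⟨m', rfl⟩ := bxf_surj m₂ hle
    exact ⟨m', hm₂⟩) (fun i l => y i l ^ p) (v (p : E) ^ T) (pow_nonneg (v.nonneg _) _) ?_
  · have e1 : (Matrix.of fun i m : Bx k M => mn m (fun l => y i l ^ p)) =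
        Matrix.of fun i m : Bx k M => mn m (y i) ^ p := by
      ext i m
      rw [Matrix.of_apply, Matrix.of_apply, mn_pow]
    rw [e1] at key
    rw [pow_mul]
    refine key.trans (le_of_eq ?_)
    congr 1
    refine Finset.prod_congr rfl fun i _ => Finset.prod_congr rfl fun l _ => ?_
    rw [hmaxp, ← pow_mul]
  · intro i
    have h1 := aeval_box (S := E) (P ^ T) hQD (fun l => y i l ^ p)
    have h2 := aeval_box (S := E) P hPD (fun l => y i l ^ p)
    simp only [Algebra.algebraMap_self, RingHom.id_apply] at h1 h2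
    rw [← h1, map_pow, h2, map_pow]
    have h3 := Pool.Agent.H92.SR.loc_pow v hv p hp hp2 (Finset.univ : Finset (Bx k D)) (fun _ => (1 : ℤ))
      (fun _ => Or.inr (Or.inl rfl)) (fun z => a' z * mn z (y i))
      (∏ l, (max 1 (v (y i l))) ^ D) (Finset.prod_nonneg fun l _ =>
        pow_nonneg (zero_le_one.trans (hone i l)) _) (fun z _ => by
        rw [map_mul]
        calc v (a' z) * v (mn z (y i)) ≤ 1 * ∏ l, (max 1 (v (y i l))) ^ D := by
              refine mul_le_mul (ha'1 z) ?_ (v.nonneg _) zero_le_one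
              unfold mn
              rw [map_prod]
              refine Finset.prod_le_prod (fun l _ => v.nonneg _) fun l _ => ?_
              rw [map_pow]
              calc v (y i l) ^ (z l : ℕ) ≤ (max 1 (v (y i l))) ^ (z l : ℕ) :=
                    pow_le_pow_left₀ (v.nonneg _) (le_max_right _ _) _
                _ ≤ (max 1 (v (y i l))) ^ D :=
                    pow_le_pow_right₀ (hone i l) (by have := (z l).2; omega)
          _ = _ := one_mul _) (by
        simp only [Int.cast_one, one_mul]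
        exact hy' i)
    have h4 : ∑ m : Bx k D, P.coeff (bxf m) * mn m (fun l => y i l ^ p) =
        ∑ z ∈ (Finset.univ : Finset (Bx k D)), ((1 : ℤ) : E) * (a' z * mn z (y i)) ^ p := by
      refine Finset.sum_congr rfl fun z _ => ?_
      rw [hPc, mn_pow, Int.cast_one, one_mul, mul_pow]
    rw [h4]
    have h5 : (∏ l, (max 1 (v (y i l))) ^ D) ^ p = ∏ l, (max 1 (v (y i l ^ p))) ^ D := by
      rw [← Finset.prod_pow]
      refine Finset.prod_congr rfl fun l _ => ?_
      rw [hmaxp, ← pow_mul, ← pow_mul, mul_comm]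
    rw [h5] at h3
    calc v (∑ z ∈ (Finset.univ : Finset (Bx k D)), ((1 : ℤ) : E) * (a' z * mn z (y i)) ^ p) ^ T
        ≤ (v (p : E) * ∏ l, (max 1 (v (y i l ^ p))) ^ D) ^ T := pow_le_pow_left₀ (v.nonneg _) h3 _
      _ = v (p : E) ^ T * ∏ l, (max 1 (v (y i l ^ p))) ^ (T * D) := by
          rw [mul_pow, ← Finset.prod_pow]
          congr 1
          refine Finset.prod_congr rfl fun l _ => ?_
          rw [← pow_mul, mul_comm D T]

end Pool.Agent.H33.TH2
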